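import Pool.Agent.LibSM56B.B_07
import Pool.Agent.LibSM56A.A_X3

/-! # SM56, part (B): the target `BMain` (helper31) -/

set_option autoImplicit false

namespace Pool.Agent.LibSM56B

open MeasureTheory Set Filter Topology Complex
open Pool.Agent.LibSM47 Pool.Agent.LibSM56K Pool.Agent.LibSM56A
open Pool.Agent.LibSM47.SD (Tr pr Ph sl sg)

/-- `BMain` without the condition `m² ≤ T` (replaced by `m ≤ T`, `N ≥ 1`). -/
theorem B_main' (η ε₁ δ : ℝ) (hη : 0 < η) (hη1 : η ≤ 1) (hε1 : 0 < ε₁) (hδ : 0 < δ) (hδ1 : δ ≤ 1 / 100) :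
    ∃ C T₀ : ℝ, 0 < C ∧ ∀ T : ℝ, T₀ ≤ T →
    ∀ u : ℝ, ε₁ * T ≤ u → u ≤ T → ∀ m N : ℕ, 1 ≤ m → 1 ≤ N → (m : ℝ) * N ≤ T → ∀ β : ℕ → ℂ, (∀ n, ‖β n‖ ≤ 1) →
    ‖∑ n ∈ (Finset.Icc 1 N).filter (fun n => Nat.Coprime m n), β n * (((n : ℝ) ^ (-(1 / 2) : ℝ) : ℝ) : ℂ) * VV T (T ^ (1 - δ)) u m n‖ ≤
      C * T ^ (-(1 / 2) + η + 6 * δ) * √((m : ℝ) + N) := by
  obtain ⟨T1, hV⟩ := voronoi 0 ε₁ δ hε1 hδ (by linarith)
  obtain ⟨C2, T2, hC2, hO2⟩ := Om_half 0 ε₁ δ hε1 hδ (by linarith)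
  obtain ⟨C3, T3, hC3, hO3⟩ := Om_left 0 0 ε₁ δ hε1 hδ (by linarith)
  obtain ⟨C4, hC4, hlow⟩ := part_low η hη
  obtain ⟨C5, hC5, hhigh⟩ := part_high η hη hη1
  refine ⟨1 + 8 * (C4 * C2 + C5 * C3), max 4 (max T1 (max T2 T3)), by positivity, ?_⟩
  intro T hT u hu1 hu2 m N hm hN hmN β hβ
  have hT4 : 4 ≤ T := (le_max_left _ _).trans hT
  have hT1 : T1 ≤ T := ((le_max_left _ _).trans (le_max_right _ _)).trans hT
  have hT2 : T2 ≤ T := (((le_max_left _ _).trans (le_max_right _ _)).trans (le_max_right _ _)).trans hT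
  have hT3 : T3 ≤ T := (((le_max_right _ _).trans (le_max_right _ _)).trans (le_max_right _ _)).trans hT
  have hT0 : 0 < T := by linarith
  have hT1' : 1 ≤ T := by linarith
  have : NeZero m := ⟨by omega⟩
  have hm0 : (0 : ℝ) < m := by exact_mod_cast hm
  have hm1 : (1 : ℝ) ≤ m := by exact_mod_cast hm
  have hN1 : (1 : ℝ) ≤ N := by exact_mod_cast hN
  have hmT : (m : ℝ) ≤ T := (le_mul_of_one_le_right hm0.le hN1).trans hmN
  have hNT : (N : ℝ) ≤ T := (le_mul_of_one_le_left (by linarith) hm1).trans hmN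
  obtain ⟨S, hS⟩ : ∃ S : Finset ℕ, S = (Finset.Icc 1 N).filter (fun n => Nat.Coprime m n) := ⟨_, rfl⟩
  have hSN : S ⊆ Finset.Icc 1 N := by rw [hS]; exact Finset.filter_subset _ _
  have hSc : ∀ n ∈ S, Nat.Coprime n m := by
    intro n hn
    rw [hS, Finset.mem_filter] at hn
    exact hn.2.symm
  rw [← hS]
  obtain ⟨V, hVd⟩ : ∃ V : ℝ, V = T ^ (1 - δ) := ⟨_, rfl⟩
  -- the two kinds of integrals
  obtain ⟨J1, hJ1⟩ : ∃ J1 : B3 → ℕ → ℂ, J1 = fun b n => ∫ y : ℝ, Om T V u b (line (1 / 2) y) *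
      (((n * m ^ 2 : ℕ) : ℂ) ^ (-(line (1 / 2) y)) * DSle m ((n : ℕ) : ZMod m) b m (1 - line (1 / 2) y)) := ⟨_, rfl⟩
  obtain ⟨J2, hJ2⟩ : ∃ J2 : B3 → ℕ → ℂ, J2 = fun b n => ∫ y : ℝ, Om T V u b (line (-(1 / 2)) y) *
      (((n * m ^ 2 : ℕ) : ℂ) ^ (-(line (-(1 / 2)) y)) * DSgt m ((n : ℕ) : ZMod m) b m (1 - line (-(1 / 2)) y)) := ⟨_, rfl⟩
  obtain ⟨γ, hγ⟩ : ∃ γ : ℕ → ℂ, γ = fun n => β n * (((n : ℝ) ^ (-(1 / 2) : ℝ) : ℝ) : ℂ) * ((√((n : ℝ) / m) : ℝ) : ℂ) := ⟨_, rfl⟩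
  have hvor : ∀ n ∈ S, ‖VV T V u m n - ((√((n : ℝ) / m) : ℝ) : ℂ) * ∑ b : B3, (J1 b n + J2 b n)‖ ≤ T ^ (-(2 : ℝ)) := by
    intro n hn
    have hn1 := Finset.mem_Icc.1 (hSN hn)
    have h1 := hV T hT1 u hu1 hu2 m n hn1.1 (hSc n hn) hmT ((show (n : ℝ) ≤ N by exact_mod_cast hn1.2).trans hNT) m ?_
    · rw [← hVd] at h1
      have e0 : (-((0 : ℕ) : ℝ) - 1 / 2) = -(1 / 2) := by norm_num
      rw [e0] at h1
      rw [hJ1, hJ2]
      simp only [← mul_assoc]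
      exact h1
    · calc (m : ℝ) ≤ T := hmT
        _ = T ^ 1 := (pow_one T).symm
        _ ≤ T ^ 4 := pow_le_pow_right₀ hT1' (by norm_num)
  have hsplit : ∑ n ∈ S, β n * (((n : ℝ) ^ (-(1 / 2) : ℝ) : ℝ) : ℂ) * VV T V u m n =
      ∑ n ∈ S, β n * (((n : ℝ) ^ (-(1 / 2) : ℝ) : ℝ) : ℂ) *
        (VV T V u m n - ((√((n : ℝ) / m) : ℝ) : ℂ) * ∑ b : B3, (J1 b n + J2 b n)) +
      ∑ b : B3, (∑ n ∈ S, γ n * J1 b n + ∑ n ∈ S, γ n * J2 b n) := by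
    have h1 : ∑ b : B3, (∑ n ∈ S, γ n * J1 b n + ∑ n ∈ S, γ n * J2 b n) =
        ∑ n ∈ S, γ n * ∑ b : B3, (J1 b n + J2 b n) := by
      have h2 : ∀ b : B3, ∑ n ∈ S, γ n * J1 b n + ∑ n ∈ S, γ n * J2 b n = ∑ n ∈ S, γ n * (J1 b n + J2 b n) := by
        intro b
        rw [← Finset.sum_add_distrib]
        exact Finset.sum_congr rfl fun n _ => by ring
      rw [Finset.sum_congr rfl fun b _ => h2 b, Finset.sum_comm]
      exact Finset.sum_congr rfl fun n _ => (Finset.mul_sum _ _ _).symm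
    rw [h1, ← Finset.sum_add_distrib]
    refine Finset.sum_congr rfl fun n _ => ?_
    rw [hγ]
    ring
  -- the error of the Voronoi form
  have herr : ‖∑ n ∈ S, β n * (((n : ℝ) ^ (-(1 / 2) : ℝ) : ℝ) : ℂ) *
        (VV T V u m n - ((√((n : ℝ) / m) : ℝ) : ℂ) * ∑ b : B3, (J1 b n + J2 b n))‖ ≤ T ^ (-(1 : ℝ)) := by
    refine (norm_sum_le _ _).trans ?_
    have h1 : ∀ n ∈ S, ‖β n * (((n : ℝ) ^ (-(1 / 2) : ℝ) : ℝ) : ℂ) *
        (VV T V u m n - ((√((n : ℝ) / m) : ℝ) : ℂ) * ∑ b : B3, (J1 b n + J2 b n))‖ ≤ T ^ (-(2 : ℝ)) := by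
      intro n hn
      have hn1 : (1 : ℝ) ≤ n := by exact_mod_cast (Finset.mem_Icc.1 (hSN hn)).1
      rw [norm_mul, norm_mul, Complex.norm_real, Real.norm_of_nonneg (by positivity)]
      have h2 : (n : ℝ) ^ (-(1 / 2) : ℝ) ≤ 1 := Real.rpow_le_one_of_one_le_of_nonpos hn1 (by norm_num)
      calc ‖β n‖ * (n : ℝ) ^ (-(1 / 2) : ℝ) * ‖VV T V u m n - ((√((n : ℝ) / m) : ℝ) : ℂ) * ∑ b : B3, (J1 b n + J2 b n)‖
          ≤ 1 * 1 * T ^ (-(2 : ℝ)) := by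
            have := hβ n
            have := hvor n hn
            gcongr
        _ = T ^ (-(2 : ℝ)) := by ring
    refine (Finset.sum_le_sum h1).trans ?_
    rw [Finset.sum_const, nsmul_eq_mul]
    have h3 : (S.card : ℝ) ≤ N := by
      have := Finset.card_le_card hSN
      rw [Nat.card_Icc, Nat.add_sub_cancel] at this
      exact_mod_cast this
    calc (S.card : ℝ) * T ^ (-(2 : ℝ)) ≤ T * T ^ (-(2 : ℝ)) := by
          have := h3.trans hNT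
          gcongr
      _ = T ^ (-(1 : ℝ)) := by
          rw [← Real.rpow_one_add' hT0.le (by norm_num)]
          norm_num
  -- the main parts
  have hmNη : (m : ℝ) ^ η * (N : ℝ) ^ η ≤ T ^ η := by
    rw [← Real.mul_rpow hm0.le (by linarith)]
    exact Real.rpow_le_rpow (by positivity) hmN hη.le
  have hV0 : Continuous fun y : ℝ => WW T V u (line (1 / 2) y) := WW_cont T V u (1 / 2) hT4
  have hc1 : ∀ b : B3, Continuous fun y : ℝ => Om T V u b (line (1 / 2) y) := by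
    intro b
    unfold Om
    exact (gG_cont b (1 / 2) (Or.inl rfl)).mul hV0
  have hc2 : ∀ b : B3, Continuous fun y : ℝ => Om T V u b (line (-(1 / 2)) y) := by
    intro b
    unfold Om
    exact (gG_cont b (-(1 / 2)) (Or.inr ⟨0, by norm_num⟩)).mul (WW_cont T V u (-(1 / 2)) hT4)
  have hI1 : ∀ b : B3, Integrable (fun y : ℝ => ‖Om T V u b (line (1 / 2) y)‖) ∧
      ∫ y : ℝ, ‖Om T V u b (line (1 / 2) y)‖ ≤ C2 * T ^ (6 * δ - 1 / 2) := by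
    intro b
    have h1 := hO2 T hT2 u hu1 hu2 b
    rw [← hVd] at h1
    simp only [pow_zero, one_mul, Nat.cast_zero, zero_add] at h1
    exact h1
  have hI2 : ∀ b : B3, Integrable (fun y : ℝ => ‖Om T V u b (line (-(1 / 2)) y)‖) ∧
      ∫ y : ℝ, ‖Om T V u b (line (-(1 / 2)) y)‖ ≤ C3 * T ^ (6 * δ - 3 / 2) := by
    intro b
    have h1 := hO3 T hT3 u hu1 hu2 b
    rw [← hVd] at h1
    have e0 : (-((0 : ℕ) : ℝ) - 1 / 2) = -(1 / 2) := by norm_num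
    have e1 : (((0 : ℕ) : ℝ) + 4 * ((0 : ℕ) : ℝ) + 6) * δ - ((0 : ℕ) : ℝ) - 3 / 2 = 6 * δ - 3 / 2 := by
      push_cast
      ring
    rw [e0, e1] at h1
    simp only [pow_zero, one_mul] at h1
    exact h1
  have hsq0 : 0 ≤ √((m : ℝ) + N) := Real.sqrt_nonneg _
  have hb1 : ∀ b : B3, ‖∑ n ∈ S, γ n * J1 b n‖ ≤ C4 * C2 * (T ^ (-(1 / 2) + η + 6 * δ) * √((m : ℝ) + N)) := by
    intro b
    have h1 := hlow m N hN b S hSN hSc β hβ _ (hc1 b) (hI1 b).1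
    rw [hγ, hJ1]
    refine h1.trans ?_
    calc C4 * ((m : ℝ) ^ η * (N : ℝ) ^ η) * √((m : ℝ) + N) * ∫ y : ℝ, ‖Om T V u b (line (1 / 2) y)‖
        ≤ C4 * T ^ η * √((m : ℝ) + N) * (C2 * T ^ (6 * δ - 1 / 2)) := by
          have := (hI1 b).2
          gcongr
      _ = C4 * C2 * ((T ^ η * T ^ (6 * δ - 1 / 2)) * √((m : ℝ) + N)) := by ring
      _ = _ := by
          rw [← Real.rpow_add hT0]
          congr 3
          ring
  have hb2 : ∀ b : B3, ‖∑ n ∈ S, γ n * J2 b n‖ ≤ C5 * C3 * (T ^ (-(1 / 2) + η + 6 * δ) * √((m : ℝ) + N)) := by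
    intro b
    have h1 := hhigh m N hN b S hSN hSc β hβ _ (hc2 b) (hI2 b).1
    rw [hγ, hJ2]
    refine h1.trans ?_
    calc C5 * ((m : ℝ) * N) * ((m : ℝ) ^ η * (N : ℝ) ^ η) * √((m : ℝ) + N) * ∫ y : ℝ, ‖Om T V u b (line (-(1 / 2)) y)‖
        ≤ C5 * T * T ^ η * √((m : ℝ) + N) * (C3 * T ^ (6 * δ - 3 / 2)) := by
          have := (hI2 b).2
          gcongr
      _ = C5 * C3 * ((T * T ^ η * T ^ (6 * δ - 3 / 2)) * √((m : ℝ) + N)) := by ring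
      _ = _ := by
          rw [← Real.rpow_one_add' hT0.le (by positivity), ← Real.rpow_add hT0]
          congr 3
          ring
  rw [← hVd, hsplit]
  have h9 : T ^ (-(1 : ℝ)) ≤ T ^ (-(1 / 2) + η + 6 * δ) * √((m : ℝ) + N) := by
    have h10 : T ^ (-(1 : ℝ)) ≤ T ^ (-(1 / 2) + η + 6 * δ) := Real.rpow_le_rpow_of_exponent_le hT1' (by linarith)
    have h11 : 1 ≤ √((m : ℝ) + N) := by
      rw [Real.one_le_sqrt]
      linarith
    calc T ^ (-(1 : ℝ)) = T ^ (-(1 : ℝ)) * 1 := (mul_one _).symm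
      _ ≤ _ := by gcongr
  have h12 : ‖∑ b : B3, (∑ n ∈ S, γ n * J1 b n + ∑ n ∈ S, γ n * J2 b n)‖ ≤
      8 * ((C4 * C2 + C5 * C3) * (T ^ (-(1 / 2) + η + 6 * δ) * √((m : ℝ) + N))) := by
    refine (norm_sum_le _ _).trans ?_
    have h13 : ∀ b ∈ (Finset.univ : Finset B3), ‖∑ n ∈ S, γ n * J1 b n + ∑ n ∈ S, γ n * J2 b n‖ ≤
        (C4 * C2 + C5 * C3) * (T ^ (-(1 / 2) + η + 6 * δ) * √((m : ℝ) + N)) := by
      intro b _
      refine (norm_add_le _ _).trans ((add_le_add (hb1 b) (hb2 b)).trans (le_of_eq ?_))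
      ring
    refine (Finset.sum_le_sum h13).trans (le_of_eq ?_)
    rw [Finset.sum_const, nsmul_eq_mul]
    congr 1
  refine (norm_add_le _ _).trans ((add_le_add (herr.trans h9) h12).trans (le_of_eq ?_))
  ring

/-- The target of part (B). -/
theorem B_main : BMain := by
  intro η ε₁ δ hη hε1 hδ hδ1
  obtain ⟨C, T₀, hC, h⟩ := B_main' (min η 1) ε₁ δ (lt_min hη one_pos) (min_le_right _ _) hε1 hδ hδ1
  refine ⟨C, max 1 T₀, hC, ?_⟩
  intro T hT u hu1 hu2 m N hm _ hmN β hβ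
  have hT1 : 1 ≤ T := (le_max_left _ _).trans hT
  rcases Nat.eq_zero_or_pos N with hN | hN
  · subst hN
    simp only [Finset.Icc_eq_empty_of_lt Nat.zero_lt_one, Finset.filter_empty, Finset.sum_empty, norm_zero]
    positivity
  · refine (h T ((le_max_right _ _).trans hT) u hu1 hu2 m N hm hN hmN β hβ).trans ?_
    have h1 : T ^ (-(1 / 2) + min η 1 + 6 * δ) ≤ T ^ (-(1 / 2) + η + 6 * δ) := by
      refine Real.rpow_le_rpow_of_exponent_le hT1 ?_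
      have := min_le_left η 1
      linarith
    gcongr

end Pool.Agent.LibSM56B
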