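import Pool.Agent.LibSM56K.Main

/-! # SM56, part (B): the operator norm of Kloosterman fractions at a fixed modulus (helper31) -/

set_option autoImplicit false

namespace Pool.Agent.LibSM56B

open Complex
open Pool.Agent.LibSM56K

/-- Parseval. -/
theorem parseval (c : ℕ) [NeZero c] (α : ZMod c → ℂ) :
    ∑ x : ZMod c, ‖∑ k : ZMod c, α k * (ZMod.stdAddChar (k * x) : ℂ)‖ ^ 2 = c * ∑ k : ZMod c, ‖α k‖ ^ 2 := by
  have hsq : ∀ z : ℂ, ((‖z‖ ^ 2 : ℝ) : ℂ) = z * (starRingEnd ℂ) z := by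
    intro z
    rw [Complex.mul_conj, Complex.normSq_eq_norm_sq]
  have hconj : ∀ y : ZMod c, (starRingEnd ℂ) (ZMod.stdAddChar y : ℂ) = ZMod.stdAddChar (-y) := by
    intro y
    rw [AddChar.map_neg_eq_conj]
  have h1 : ((∑ x : ZMod c, ‖∑ k : ZMod c, α k * (ZMod.stdAddChar (k * x) : ℂ)‖ ^ 2 : ℝ) : ℂ) =
      ((c * ∑ k : ZMod c, ‖α k‖ ^ 2 : ℝ) : ℂ) := by
    rw [Complex.ofReal_sum, Complex.ofReal_mul, Complex.ofReal_sum]
    simp only [hsq]
    have h2 : ∀ x : ZMod c, (∑ k : ZMod c, α k * (ZMod.stdAddChar (k * x) : ℂ)) *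
        (starRingEnd ℂ) (∑ k : ZMod c, α k * (ZMod.stdAddChar (k * x) : ℂ)) =
        ∑ k : ZMod c, ∑ l : ZMod c, α k * (starRingEnd ℂ) (α l) * (ZMod.stdAddChar (x * (k - l)) : ℂ) := by
      intro x
      rw [map_sum, Finset.sum_mul_sum]
      refine Finset.sum_congr rfl fun k _ => Finset.sum_congr rfl fun l _ => ?_
      rw [(starRingEnd ℂ).map_mul, hconj, show x * (k - l) = k * x + -(l * x) by ring, AddChar.map_add_eq_mul]
      ring
    rw [Finset.sum_congr rfl fun x _ => h2 x, Finset.sum_comm, Finset.mul_sum]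
    refine Finset.sum_congr rfl fun k _ => ?_
    rw [Finset.sum_comm, Finset.sum_eq_single k]
    · rw [← Finset.mul_sum, AddChar.sum_mulShift _ (ZMod.isPrimitive_stdAddChar c), ZMod.card, sub_self, if_pos rfl]
      push_cast
      ring
    · intro l _ hl
      rw [← Finset.mul_sum, AddChar.sum_mulShift _ (ZMod.isPrimitive_stdAddChar c),
        if_neg (sub_ne_zero.2 (Ne.symm hl))]
      simp
    · intro h
      exact absurd (Finset.mem_univ k) h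
  exact_mod_cast h1

theorem sq_fiber {ι κ : Type*} [Fintype κ] [DecidableEq κ] (S : Finset ι) (f : ι → κ) (b : ι → ℝ) :
    ∑ k : κ, (∑ n ∈ S, if f n = k then b n else 0) ^ 2 =
      ∑ n ∈ S, ∑ n' ∈ S, if f n = f n' then b n * b n' else 0 := by
  have h1 : ∀ k : κ, (∑ n ∈ S, if f n = k then b n else 0) ^ 2 =
      ∑ n ∈ S, ∑ n' ∈ S, if f n = k then (if f n' = k then b n * b n' else 0) else 0 := by
    intro k
    rw [sq, Finset.sum_mul_sum]
    refine Finset.sum_congr rfl fun n _ => Finset.sum_congr rfl fun n' _ => ?_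
    split_ifs <;> simp
  rw [Finset.sum_congr rfl fun k _ => h1 k, Finset.sum_comm]
  refine Finset.sum_congr rfl fun n _ => ?_
  rw [Finset.sum_comm]
  refine Finset.sum_congr rfl fun n' _ => ?_
  rw [Finset.sum_ite_eq Finset.univ (f n)]
  simp only [Finset.mem_univ, if_true]
  by_cases h : f n = f n'
  · rw [if_pos h, if_pos h.symm]
  · rw [if_neg h, if_neg (fun h' => h h'.symm)]

/-- The operator norm of Kloosterman fractions at a fixed modulus. -/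
theorem op_series {ι : Type*} (c : ℕ) [NeZero c] (g : ι → ℂ) (hg : Summable fun a => ‖g a‖) (k : ι → ZMod c)
    (S : Finset ℕ) (hS : ∀ n ∈ S, Nat.Coprime n c) (B : ℕ → ℂ) :
    ‖∑ n ∈ S, B n * ∑' a, g a * Sk c 1 (k a * ((n : ℕ) : ZMod c)⁻¹)‖ ≤
      c * √(∑ κ : ZMod c, (∑' a, if k a = κ then ‖g a‖ else 0) ^ 2) *
        √(∑ κ : ZMod c, (∑ n ∈ S, if ((n : ℕ) : ZMod c) = κ then ‖B n‖ else 0) ^ 2) := by
  classical
  have hg1 : Summable g := hg.of_norm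
  have hgk : ∀ κ : ZMod c, Summable fun a => if k a = κ then g a else 0 := by
    intro κ
    refine Summable.of_norm_bounded hg fun a => ?_
    split_ifs
    · exact le_rfl
    · rw [norm_zero]; exact norm_nonneg _
  have hgn : ∀ κ : ZMod c, Summable fun a => if k a = κ then ‖g a‖ else 0 := by
    intro κ
    refine Summable.of_nonneg_of_le (fun a => ?_) (fun a => ?_) hg
    · split_ifs
      · exact norm_nonneg _
      · exact le_rfl
    · split_ifs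
      · exact le_rfl
      · exact norm_nonneg _
  obtain ⟨α, hα⟩ : ∃ α : ZMod c → ℂ, α = fun κ => ∑' a, if k a = κ then g a else 0 := ⟨_, rfl⟩
  obtain ⟨γ, hγ⟩ : ∃ γ : ZMod c → ℂ, γ = fun κ => ∑ n ∈ S, if ((n : ℕ) : ZMod c)⁻¹ = κ then B n else 0 := ⟨_, rfl⟩
  have hαn : ∀ κ, ‖α κ‖ ≤ ∑' a, if k a = κ then ‖g a‖ else 0 := by
    intro κ
    rw [hα]
    have h2 : (fun a => ‖(if k a = κ then g a else 0 : ℂ)‖) = fun a => if k a = κ then ‖g a‖ else 0 := by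
      funext a
      split_ifs
      · rfl
      · exact norm_zero
    have h1 := norm_tsum_le_tsum_norm (f := fun a => if k a = κ then g a else 0) (by rw [h2]; exact hgn κ)
    rw [h2] at h1
    exact h1
  have hγn : ∀ κ, ‖γ κ‖ ≤ ∑ n ∈ S, if ((n : ℕ) : ZMod c)⁻¹ = κ then ‖B n‖ else 0 := by
    intro κ
    rw [hγ]
    refine (norm_sum_le _ _).trans (Finset.sum_le_sum fun n _ => ?_)
    split_ifs
    · exact le_rfl
    · rw [norm_zero]
  -- decomposition of the series along the classes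
  have hdec : ∀ H : ZMod c → ℂ, ∑' a, g a * H (k a) = ∑ κ : ZMod c, α κ * H κ := by
    intro H
    have h1 : ∀ a, g a * H (k a) = ∑ κ : ZMod c, (if k a = κ then g a else 0) * H κ := by
      intro a
      rw [Finset.sum_eq_single (k a)]
      · rw [if_pos rfl]
      · intro κ _ hκ
        rw [if_neg (Ne.symm hκ), zero_mul]
      · intro h
        exact absurd (Finset.mem_univ _) h
    rw [tsum_congr h1, Summable.tsum_finsetSum fun κ _ => (hgk κ).mul_right _]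
    refine Finset.sum_congr rfl fun κ _ => ?_
    rw [hα, tsum_mul_right]
  have hdec2 : ∀ H : ZMod c → ℂ, ∑ n ∈ S, B n * H (((n : ℕ) : ZMod c)⁻¹) = ∑ κ : ZMod c, γ κ * H κ := by
    intro H
    rw [hγ]
    simp only [Finset.sum_mul]
    rw [Finset.sum_comm]
    refine Finset.sum_congr rfl fun n _ => ?_
    rw [Finset.sum_eq_single ((n : ZMod c)⁻¹)]
    · rw [if_pos rfl]
    · intro κ _ hκ
      rw [if_neg (Ne.symm hκ), zero_mul]
    · intro h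
      exact absurd (Finset.mem_univ _) h
  -- opening the Kloosterman sums
  have hopen : ∀ n ∈ S, ∑' a, g a * Sk c 1 (k a * ((n : ℕ) : ZMod c)⁻¹) =
      ∑ x : (ZMod c)ˣ, (ZMod.stdAddChar (((n : ℕ) : ZMod c)⁻¹ * (x : ZMod c)) : ℂ) *
        ∑ κ : ZMod c, α κ * (ZMod.stdAddChar (κ * ((x⁻¹ : (ZMod c)ˣ) : ZMod c)) : ℂ) := by
    intro n hn
    have hu : IsUnit ((n : ℕ) : ZMod c) := (ZMod.isUnit_iff_coprime n c).2 (hS n hn)
    obtain ⟨v, hv⟩ := hu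
    have hvi : ((n : ℕ) : ZMod c)⁻¹ = ((v⁻¹ : (ZMod c)ˣ) : ZMod c) := by
      rw [← hv, ZMod.inv_coe_unit]
    rw [hdec (fun κ => Sk c 1 (κ * ((n : ℕ) : ZMod c)⁻¹)), hvi]
    have h3 : ∀ κ : ZMod c, Sk c 1 (κ * ((v⁻¹ : (ZMod c)ˣ) : ZMod c)) =
        ∑ x : (ZMod c)ˣ, (ZMod.stdAddChar (((v⁻¹ : (ZMod c)ˣ) : ZMod c) * (x : ZMod c)) : ℂ) *
          (ZMod.stdAddChar (κ * ((x⁻¹ : (ZMod c)ˣ) : ZMod c)) : ℂ) := by
      intro κ
      rw [Sk_eq]
      unfold Kl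
      rw [← Equiv.sum_comp (Equiv.mulLeft v⁻¹)]
      refine Finset.sum_congr rfl fun x _ => ?_
      rw [Equiv.coe_mulLeft, ← AddChar.map_add_eq_mul]
      congr 1
      rw [mul_inv_rev, inv_inv, Units.val_mul, Units.val_mul]
      have h4 : ((v⁻¹ : (ZMod c)ˣ) : ZMod c) * (v : ZMod c) = 1 := Units.inv_mul v
      calc 1 * (((v⁻¹ : (ZMod c)ˣ) : ZMod c) * (x : ZMod c)) + κ * ((v⁻¹ : (ZMod c)ˣ) : ZMod c) *
            (((x⁻¹ : (ZMod c)ˣ) : ZMod c) * (v : ZMod c))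
          = ((v⁻¹ : (ZMod c)ˣ) : ZMod c) * (x : ZMod c) + κ * ((x⁻¹ : (ZMod c)ˣ) : ZMod c) *
            (((v⁻¹ : (ZMod c)ˣ) : ZMod c) * (v : ZMod c)) := by ring
        _ = _ := by rw [h4, mul_one]
    simp only [h3, Finset.mul_sum]
    rw [Finset.sum_comm]
    refine Finset.sum_congr rfl fun x _ => Finset.sum_congr rfl fun κ _ => ?_
    ring
  have hmain : ∑ n ∈ S, B n * ∑' a, g a * Sk c 1 (k a * ((n : ℕ) : ZMod c)⁻¹) =
      ∑ x : (ZMod c)ˣ, (∑ κ : ZMod c, γ κ * (ZMod.stdAddChar (κ * (x : ZMod c)) : ℂ)) *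
        ∑ κ : ZMod c, α κ * (ZMod.stdAddChar (κ * ((x⁻¹ : (ZMod c)ˣ) : ZMod c)) : ℂ) := by
    rw [Finset.sum_congr rfl fun n hn => by rw [hopen n hn, Finset.mul_sum], Finset.sum_comm]
    refine Finset.sum_congr rfl fun x _ => ?_
    rw [← hdec2 (fun κ => (ZMod.stdAddChar (κ * (x : ZMod c)) : ℂ)), Finset.sum_mul]
    refine Finset.sum_congr rfl fun n _ => ?_
    ring
  rw [hmain]
  -- Cauchy-Schwarz
  have hE : ∑ x : (ZMod c)ˣ, ‖∑ κ : ZMod c, γ κ * (ZMod.stdAddChar (κ * (x : ZMod c)) : ℂ)‖ ^ 2 ≤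
      c * ∑ κ : ZMod c, (∑ n ∈ S, if ((n : ℕ) : ZMod c) = κ then ‖B n‖ else 0) ^ 2 := by
    have h1 : ∑ x : (ZMod c)ˣ, ‖∑ κ : ZMod c, γ κ * (ZMod.stdAddChar (κ * (x : ZMod c)) : ℂ)‖ ^ 2 ≤
        ∑ x : ZMod c, ‖∑ κ : ZMod c, γ κ * (ZMod.stdAddChar (κ * x) : ℂ)‖ ^ 2 := by
      rw [← Finset.sum_image (f := fun x : ZMod c => ‖∑ κ : ZMod c, γ κ * (ZMod.stdAddChar (κ * x) : ℂ)‖ ^ 2)
        (g := fun x : (ZMod c)ˣ => (x : ZMod c)) (fun x _ y _ h => Units.ext h)]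
      exact Finset.sum_le_sum_of_subset_of_nonneg (Finset.subset_univ _) fun _ _ _ => sq_nonneg _
    refine h1.trans ?_
    rw [parseval]
    refine mul_le_mul_of_nonneg_left ?_ (Nat.cast_nonneg c)
    have h2 : ∑ κ : ZMod c, ‖γ κ‖ ^ 2 ≤ ∑ κ : ZMod c, (∑ n ∈ S, if ((n : ℕ) : ZMod c)⁻¹ = κ then ‖B n‖ else 0) ^ 2 :=
      Finset.sum_le_sum fun κ _ => pow_le_pow_left₀ (norm_nonneg _) (hγn κ) 2
    refine h2.trans (le_of_eq ?_)
    rw [sq_fiber S (fun n : ℕ => ((n : ℕ) : ZMod c)⁻¹) (fun n => ‖B n‖), sq_fiber S (fun n : ℕ => ((n : ℕ) : ZMod c)) (fun n => ‖B n‖)]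
    refine Finset.sum_congr rfl fun n hn => Finset.sum_congr rfl fun n' hn' => ?_
    have h3 : (((n : ℕ) : ZMod c)⁻¹ = ((n' : ℕ) : ZMod c)⁻¹) ↔ ((n : ℕ) : ZMod c) = ((n' : ℕ) : ZMod c) := by
      constructor
      · intro h
        have e1 := ZMod.coe_mul_inv_eq_one n (hS n hn)
        have e2 := ZMod.coe_mul_inv_eq_one n' (hS n' hn')
        calc ((n : ℕ) : ZMod c) = (n : ZMod c) * ((n' : ZMod c) * (n' : ZMod c)⁻¹) := by rw [e2, mul_one]
          _ = (n : ZMod c) * (n : ZMod c)⁻¹ * n' := by rw [h]; ring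
          _ = n' := by rw [e1, one_mul]
      · intro h
        rw [h]
    by_cases h4 : ((n : ℕ) : ZMod c) = ((n' : ℕ) : ZMod c)
    · rw [if_pos h4, if_pos (h3.2 h4)]
    · rw [if_neg h4, if_neg (fun h => h4 (h3.1 h))]
  have hA : ∑ x : (ZMod c)ˣ, ‖∑ κ : ZMod c, α κ * (ZMod.stdAddChar (κ * ((x⁻¹ : (ZMod c)ˣ) : ZMod c)) : ℂ)‖ ^ 2 ≤
      c * ∑ κ : ZMod c, (∑' a, if k a = κ then ‖g a‖ else 0) ^ 2 := by
    have h1 : ∑ x : (ZMod c)ˣ, ‖∑ κ : ZMod c, α κ * (ZMod.stdAddChar (κ * ((x⁻¹ : (ZMod c)ˣ) : ZMod c)) : ℂ)‖ ^ 2 ≤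
        ∑ x : ZMod c, ‖∑ κ : ZMod c, α κ * (ZMod.stdAddChar (κ * x) : ℂ)‖ ^ 2 := by
      rw [← Finset.sum_image (f := fun x : ZMod c => ‖∑ κ : ZMod c, α κ * (ZMod.stdAddChar (κ * x) : ℂ)‖ ^ 2)
        (g := fun x : (ZMod c)ˣ => ((x⁻¹ : (ZMod c)ˣ) : ZMod c)) (fun x _ y _ h => inv_injective (Units.ext h))]
      exact Finset.sum_le_sum_of_subset_of_nonneg (Finset.subset_univ _) fun _ _ _ => sq_nonneg _
    refine h1.trans ?_
    rw [parseval]
    refine mul_le_mul_of_nonneg_left ?_ (Nat.cast_nonneg c)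
    exact Finset.sum_le_sum fun κ _ => pow_le_pow_left₀ (norm_nonneg _) (hαn κ) 2
  refine (norm_sum_le _ _).trans ?_
  simp only [norm_mul]
  refine (Real.sum_mul_le_sqrt_mul_sqrt _ _ _).trans ?_
  refine (mul_le_mul (Real.sqrt_le_sqrt hE) (Real.sqrt_le_sqrt hA) (Real.sqrt_nonneg _) (Real.sqrt_nonneg _)).trans
    (le_of_eq ?_)
  have hc0 : (0 : ℝ) ≤ c := Nat.cast_nonneg c
  rw [Real.sqrt_mul hc0, Real.sqrt_mul hc0]
  have h5 : √(c : ℝ) * √(c : ℝ) = c := Real.mul_self_sqrt hc0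
  calc _ = (√(c : ℝ) * √(c : ℝ)) * √(∑ κ : ZMod c, (∑' a, if k a = κ then ‖g a‖ else 0) ^ 2) *
        √(∑ κ : ZMod c, (∑ n ∈ S, if ((n : ℕ) : ZMod c) = κ then ‖B n‖ else 0) ^ 2) := by ring
    _ = _ := by rw [h5]

end Pool.Agent.LibSM56B
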