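import Mathlib

/-! # SM56, part (B): sums over residue classes of a decreasing function (helper31) -/

set_option autoImplicit false

namespace Pool.Agent.LibSM56B

theorem tsum_class (c : ℕ) [NeZero c] (f : ℕ → ℝ) (hs : Summable f) (κ : ZMod c) :
    ∑' l : ℕ, (if (l : ZMod c) = κ then f l else 0) = ∑' j : ℕ, f (κ.val + c * j) := by
  have h1 : Summable fun l : ℕ => if (l : ZMod c) = κ then f l else 0 := by
    refine Summable.of_norm_bounded hs.norm fun l => ?_
    split_ifs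
    · exact le_rfl
    · rw [norm_zero]; exact norm_nonneg _
  rw [Nat.sumByResidueClasses h1 c, Finset.sum_eq_single κ]
  · refine tsum_congr fun j => ?_
    rw [if_pos]
    push_cast
    rw [ZMod.natCast_zmod_val, ZMod.natCast_self, zero_mul, add_zero]
  · intro k _ hk
    have h2 : ∀ j : ℕ, (if ((k.val + c * j : ℕ) : ZMod c) = κ then f (k.val + c * j) else 0) = 0 := by
      intro j
      rw [if_neg]
      push_cast
      rw [ZMod.natCast_zmod_val, ZMod.natCast_self, zero_mul, add_zero]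
      exact hk
    rw [tsum_congr h2, tsum_zero]
  · intro h
    exact absurd (Finset.mem_univ _) h

theorem class_le (c : ℕ) [NeZero c] (f : ℕ → ℝ) (h0 : ∀ l, 0 ≤ f l) (ha : ∀ l l', 1 ≤ l → l ≤ l' → f l' ≤ f l)
    (hs : Summable f) (κ : ZMod c) :
    ∑' l : ℕ, (if (l : ZMod c) = κ then f l else 0) ≤ f κ.val + (∑' l, f l) / c := by
  have hc : 0 < c := Nat.pos_of_ne_zero (NeZero.ne c)
  have hc0 : (0 : ℝ) < c := by exact_mod_cast hc
  have hinj : ∀ r : ℕ, Function.Injective fun j : ℕ => r + c * j := by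
    intro r x y h
    exact Nat.eq_of_mul_eq_mul_left hc (Nat.add_left_cancel h)
  have hsr : ∀ r : ℕ, Summable fun j : ℕ => f (r + c * j) := fun r => hs.comp_injective (hinj r)
  rw [tsum_class c f hs κ, (hsr κ.val).tsum_eq_zero_add]
  rw [mul_zero, add_zero]
  refine add_le_add le_rfl ?_
  rw [le_div_iff₀ hc0]
  have h1 : ∀ j : ZMod c, ∑' b : ℕ, f (κ.val + c * (b + 1)) ≤ ∑' b : ℕ, f (κ.val + 1 + (j.val + c * b)) := by
    intro j
    have hj : j.val < c := ZMod.val_lt j
    refine Summable.tsum_le_tsum (fun b => ?_) ((summable_nat_add_iff 1).2 (hsr κ.val)) ?_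
    · refine ha _ _ (by omega) ?_
      have : c * (b + 1) = c * b + c := by ring
      omega
    · refine hs.comp_injective (i := fun b : ℕ => κ.val + 1 + (j.val + c * b)) ?_
      intro x y h
      have h2 : c * x = c * y := Nat.add_left_cancel (Nat.add_left_cancel h)
      exact Nat.eq_of_mul_eq_mul_left hc h2
  have h2 : ∑ _j : ZMod c, ∑' b : ℕ, f (κ.val + c * (b + 1)) ≤ ∑ j : ZMod c, ∑' b : ℕ, f (κ.val + 1 + (j.val + c * b)) :=
    Finset.sum_le_sum fun j _ => h1 j
  rw [Finset.sum_const, Finset.card_univ, ZMod.card, nsmul_eq_mul] at h2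
  have h3 : Summable fun n : ℕ => f (κ.val + 1 + n) :=
    hs.comp_injective (i := fun n : ℕ => κ.val + 1 + n) fun x y h => Nat.add_left_cancel h
  rw [← Nat.sumByResidueClasses h3 c] at h2
  rw [mul_comm]
  refine h2.trans ?_
  refine Summable.tsum_le_tsum_of_inj (fun n : ℕ => κ.val + 1 + n) (fun x y h => Nat.add_left_cancel h)
    (fun b _ => h0 b) (fun n => le_rfl) h3 hs

theorem sum_val_le (c : ℕ) [NeZero c] (f : ℕ → ℝ) (h0 : ∀ l, 0 ≤ f l) (hs : Summable f) :
    ∑ κ : ZMod c, f κ.val ≤ ∑' l, f l := by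
  classical
  rw [← Finset.sum_image (f := f) (g := fun κ : ZMod c => κ.val) (fun x _ y _ h => ZMod.val_injective c h)]
  exact hs.sum_le_tsum _ fun l _ => h0 l

/-- The class norm of a decreasing function. -/
theorem cls_le (c : ℕ) [NeZero c] (f : ℕ → ℝ) (h0 : ∀ l, 0 ≤ f l) (ha : ∀ l l', 1 ≤ l → l ≤ l' → f l' ≤ f l)
    (hs : Summable f) (hs2 : Summable fun l => f l ^ 2) :
    ∑ κ : ZMod c, (∑' l : ℕ, (if (l : ZMod c) = κ then f l else 0)) ^ 2 ≤
      2 * ∑' l, f l ^ 2 + 2 * (∑' l, f l) ^ 2 / c := by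
  have hc : 0 < c := Nat.pos_of_ne_zero (NeZero.ne c)
  have hc0 : (0 : ℝ) < c := by exact_mod_cast hc
  have hS0 : 0 ≤ ∑' l, f l := tsum_nonneg h0
  have h1 : ∀ κ : ZMod c, (∑' l : ℕ, (if (l : ZMod c) = κ then f l else 0)) ^ 2 ≤
      2 * f κ.val ^ 2 + 2 * ((∑' l, f l) / c) ^ 2 := by
    intro κ
    have h2 := class_le c f h0 ha hs κ
    have h3 : 0 ≤ ∑' l : ℕ, (if (l : ZMod c) = κ then f l else 0) :=
      tsum_nonneg fun l => by
        split_ifs
        · exact h0 l
        · exact le_rfl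
    calc _ ≤ (f κ.val + (∑' l, f l) / c) ^ 2 := pow_le_pow_left₀ h3 h2 2
      _ ≤ _ := by nlinarith [sq_nonneg (f κ.val - (∑' l, f l) / c)]
  refine (Finset.sum_le_sum fun κ _ => h1 κ).trans ?_
  rw [Finset.sum_add_distrib, ← Finset.mul_sum, Finset.sum_const, Finset.card_univ, ZMod.card, nsmul_eq_mul]
  have h4 := sum_val_le c (fun l => f l ^ 2) (fun l => sq_nonneg _) hs2
  have h5 : (c : ℝ) * (2 * ((∑' l, f l) / c) ^ 2) = 2 * (∑' l, f l) ^ 2 / c := by
    field_simp
  rw [h5]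
  linarith

end Pool.Agent.LibSM56B
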