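import Pool.Agent.LibSM47.M_B1
import Pool.Agent.LibSM47.D_B0

/-! # SM56, part (B): sums over triples with a given product (helper31) -/

set_option autoImplicit false

namespace Pool.Agent.LibSM56B

open Pool.Agent.LibSM47
open Pool.Agent.LibSM47.SD (Tr pr)

/-- The number of triples with product `n`. -/
theorem fib_fin (n : ℕ) : Finite {a : Tr // pr a = n} ∧ (Nat.card {a : Tr // pr a = n} : ℝ) ≤ ((n.divisors.card : ℝ)) ^ 2 := by
  classical
  obtain ⟨φ, hφ⟩ : ∃ φ : {a : Tr // pr a = n} → n.divisors × n.divisors, Function.Injective φ := by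
    have h1 : ∀ a : {a : Tr // pr a = n}, (a.1.1 : ℕ) ∈ n.divisors ∧ (a.1.2.1 : ℕ) ∈ n.divisors := by
      intro a
      have h2 : pr a.1 = n := a.2
      have hn : n ≠ 0 := by
        rw [← h2]
        exact (SD.pr_pos a.1).ne'
      unfold pr at h2
      constructor
      · rw [Nat.mem_divisors]
        exact ⟨⟨(a.1.2.1 : ℕ) * (a.1.2.2 : ℕ), by rw [← mul_assoc]; exact h2.symm⟩, hn⟩
      · rw [Nat.mem_divisors]
        refine ⟨⟨(a.1.1 : ℕ) * (a.1.2.2 : ℕ), h2.symm.trans ?_⟩, hn⟩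
        ring
    refine ⟨fun a => (⟨_, (h1 a).1⟩, ⟨_, (h1 a).2⟩), ?_⟩
    intro a b h
    rw [Prod.mk.injEq, Subtype.mk.injEq, Subtype.mk.injEq] at h
    obtain ⟨h3, h4⟩ := h
    have h5 : pr a.1 = pr b.1 := a.2.trans b.2.symm
    unfold pr at h5
    rw [h3, h4] at h5
    have h6 : ((a.1.2.2 : ℕ)) = b.1.2.2 :=
      Nat.eq_of_mul_eq_mul_left (Nat.mul_pos b.1.1.pos b.1.2.1.pos) h5
    refine Subtype.ext (Prod.ext (PNat.eq h3) (Prod.ext (PNat.eq h4) (PNat.eq h6)))
  have hfin : Finite {a : Tr // pr a = n} := Finite.of_injective φ hφ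
  refine ⟨hfin, ?_⟩
  have h7 := Nat.card_le_card_of_injective φ hφ
  have h8 : Nat.card n.divisors = n.divisors.card := by rw [Nat.card_eq_fintype_card, Fintype.card_coe]
  rw [Nat.card_prod, h8] at h7
  rw [sq]
  exact_mod_cast h7

/-- Sums over triples along the product. -/
theorem tr_fiber (η : ℝ) (hη : 0 < η) : ∃ C : ℝ, 0 < C ∧ ∀ G : ℕ → ℝ, (∀ n, 0 ≤ G n) →
    Summable (fun n : ℕ => (n : ℝ) ^ η * G n) →
    Summable (fun a : Tr => G (pr a)) ∧ ∑' a : Tr, G (pr a) ≤ C * ∑' n : ℕ, (n : ℝ) ^ η * G n := by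
  obtain ⟨D, hD, hdiv⟩ := card_div_le (η / 2) (by positivity)
  refine ⟨D ^ 2, by positivity, fun G hG hs => ?_⟩
  obtain ⟨e, he⟩ : ∃ e : (Σ n : ℕ, {a : Tr // pr a = n}) ≃ Tr, e = Equiv.sigmaFiberEquiv (pr : Tr → ℕ) := ⟨_, rfl⟩
  have hpe : ∀ x : (Σ n : ℕ, {a : Tr // pr a = n}), G (pr (e x)) = G x.1 := by
    intro x
    rw [he]
    obtain ⟨n, a, ha⟩ := x
    show G (pr a) = G n
    rw [ha]
  have hcard : ∀ n : ℕ, ∑' _y : {a : Tr // pr a = n}, G n ≤ D ^ 2 * ((n : ℝ) ^ η * G n) := by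
    intro n
    obtain ⟨hf, hc⟩ := fib_fin n
    rw [tsum_const, nsmul_eq_mul, ← mul_assoc]
    refine mul_le_mul_of_nonneg_right ?_ (hG n)
    rcases Nat.eq_zero_or_pos n with h | h
    · subst h
      have h1 : Nat.card {a : Tr // pr a = 0} = 0 := by
        rw [Nat.card_eq_zero]
        left
        exact ⟨fun a => (SD.pr_pos a.1).ne' a.2⟩
      rw [h1]
      push_cast
      positivity
    · refine hc.trans ?_
      have h1 := hdiv n h
      have hn0 : (0 : ℝ) ≤ n := Nat.cast_nonneg n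
      calc ((n.divisors.card : ℝ)) ^ 2 ≤ (D * (n : ℝ) ^ (η / 2)) ^ 2 := pow_le_pow_left₀ (Nat.cast_nonneg _) h1 2
        _ = D ^ 2 * (n : ℝ) ^ η := by
          rw [mul_pow, ← Real.rpow_natCast ((n : ℝ) ^ (η / 2)) 2, ← Real.rpow_mul hn0]
          congr 2
          push_cast
          ring
  have hs1 : Summable (fun x : (Σ n : ℕ, {a : Tr // pr a = n}) => G x.1) := by
    rw [summable_sigma_of_nonneg fun x => hG x.1]
    refine ⟨fun n => ?_, ?_⟩
    · have := (fib_fin n).1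
      exact summable_of_hasFiniteSupport (Set.toFinite _)
    · exact Summable.of_nonneg_of_le (fun n => tsum_nonneg fun _ => hG n) hcard (hs.mul_left _)
  have hs2 : Summable (fun a : Tr => G (pr a)) := by
    rw [← e.summable_iff]
    exact hs1.congr fun x => (hpe x).symm
  refine ⟨hs2, ?_⟩
  rw [← e.tsum_eq, tsum_congr hpe, hs1.tsum_sigma, ← tsum_mul_left]
  exact Summable.tsum_le_tsum hcard hs1.sigma (hs.mul_left _)

end Pool.Agent.LibSM56B
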