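import Pool.Agent.LibSM56B.B_02
import Pool.Agent.LibSM56K.Main

/-! # SM56, part (B): the class norms used (helper31) -/

set_option autoImplicit false

namespace Pool.Agent.LibSM56B

open Pool.Agent.LibSM56K

/-! ## The decreasing function `max(Xl, Λ)^{-5/4}` -/

theorem pw_star {s t : ℝ} (hs : 0 < s) (hst : s ≤ t) :
    (t - s) * t ^ (-(5 / 4) : ℝ) ≤ 4 * (s ^ (-(1 / 4) : ℝ) - t ^ (-(1 / 4) : ℝ)) := by
  have ht : 0 < t := hs.trans_le hst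
  obtain ⟨r, hr⟩ : ∃ r : ℝ, r = s / t := ⟨_, rfl⟩
  have hr0 : 0 < r := by rw [hr]; positivity
  have hsr : s = r * t := by rw [hr]; field_simp
  have h1 : 1 + (1 / 4) * (1 - r) ≤ r ^ (-(1 / 4) : ℝ) := by
    rw [Real.rpow_def_of_pos hr0]
    have h2 := Real.add_one_le_exp (Real.log r * (-(1 / 4)))
    have h3 := Real.log_le_sub_one_of_pos hr0
    linarith
  have h4 : t ^ (-(5 / 4) : ℝ) = t ^ (-(1 / 4) : ℝ) / t := by
    rw [← Real.rpow_sub_one ht.ne']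
    norm_num
  have h5 : 0 ≤ t ^ (-(1 / 4) : ℝ) := Real.rpow_nonneg ht.le _
  rw [h4, hsr, Real.mul_rpow hr0.le ht.le]
  have h6 : (t - r * t) * (t ^ (-(1 / 4) : ℝ) / t) = (1 - r) * t ^ (-(1 / 4) : ℝ) := by
    field_simp
  rw [h6]
  nlinarith

/-- The primitive. -/
noncomputable def PP (Λ t : ℝ) : ℝ := if t ≤ Λ then t * Λ ^ (-(5 / 4) : ℝ) else 5 * Λ ^ (-(1 / 4) : ℝ) - 4 * t ^ (-(1 / 4) : ℝ)

theorem rp_one {Λ : ℝ} (hΛ : 0 < Λ) : Λ * Λ ^ (-(5 / 4) : ℝ) = Λ ^ (-(1 / 4) : ℝ) := by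
  have h : Λ ^ (-(5 / 4) : ℝ) = Λ ^ (-(1 / 4) : ℝ) / Λ := by
    rw [← Real.rpow_sub_one hΛ.ne']
    norm_num
  rw [h]
  field_simp

theorem PP_le {Λ t : ℝ} (hΛ : 0 < Λ) : PP Λ t ≤ 5 * Λ ^ (-(1 / 4) : ℝ) := by
  have h1 : 0 ≤ Λ ^ (-(1 / 4) : ℝ) := Real.rpow_nonneg hΛ.le _
  unfold PP
  split_ifs with h
  · have h2 : t * Λ ^ (-(5 / 4) : ℝ) ≤ Λ * Λ ^ (-(5 / 4) : ℝ) :=
      mul_le_mul_of_nonneg_right h (Real.rpow_nonneg hΛ.le _)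
    rw [rp_one hΛ] at h2
    linarith
  · push Not at h
    have h3 : 0 ≤ t ^ (-(1 / 4) : ℝ) := Real.rpow_nonneg (hΛ.le.trans h.le) _
    linarith

theorem PP_step {Λ s t : ℝ} (hΛ : 0 < Λ) (hst : s ≤ t) :
    (t - s) * (max t Λ) ^ (-(5 / 4) : ℝ) ≤ PP Λ t - PP Λ s := by
  unfold PP
  by_cases h1 : t ≤ Λ
  · rw [if_pos h1, if_pos (hst.trans h1), max_eq_right h1]
    exact le_of_eq (by ring)
  · push Not at h1
    rw [if_neg (not_le.2 h1), max_eq_left h1.le]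
    by_cases h2 : s ≤ Λ
    · rw [if_pos h2]
      have h3 := pw_star hΛ h1.le
      have h4 := rp_one hΛ
      have h5 : t ^ (-(5 / 4) : ℝ) ≤ Λ ^ (-(5 / 4) : ℝ) :=
        Real.rpow_le_rpow_of_nonpos hΛ h1.le (by norm_num)
      have h6 : (Λ - s) * t ^ (-(5 / 4) : ℝ) ≤ (Λ - s) * Λ ^ (-(5 / 4) : ℝ) :=
        mul_le_mul_of_nonneg_left h5 (by linarith)
      nlinarith
    · push Not at h2
      rw [if_neg (not_le.2 h2)]
      have h3 := pw_star (hΛ.trans h2) hst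
      linarith

/-- The function. -/
noncomputable def Fh (X Λ : ℝ) (l : ℕ) : ℝ := if l = 0 then 0 else (max (X * l) Λ) ^ (-(5 / 4) : ℝ)

theorem Fh_nonneg (X Λ : ℝ) (hΛ : 0 < Λ) (l : ℕ) : 0 ≤ Fh X Λ l := by
  unfold Fh
  split_ifs
  · exact le_rfl
  · exact Real.rpow_nonneg (hΛ.le.trans (le_max_right _ _)) _

theorem Fh_le (X Λ : ℝ) (hΛ : 0 < Λ) (l : ℕ) : Fh X Λ l ≤ Λ ^ (-(5 / 4) : ℝ) := by
  unfold Fh
  split_ifs
  · exact Real.rpow_nonneg hΛ.le _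
  · exact Real.rpow_le_rpow_of_nonpos hΛ (le_max_right _ _) (by norm_num)

theorem Fh_anti (X Λ : ℝ) (hX : 0 < X) (hΛ : 0 < Λ) (l l' : ℕ) (h1 : 1 ≤ l) (h2 : l ≤ l') : Fh X Λ l' ≤ Fh X Λ l := by
  unfold Fh
  rw [if_neg (by omega), if_neg (by omega)]
  refine Real.rpow_le_rpow_of_nonpos (hΛ.trans_le (le_max_right _ _)) ?_ (by norm_num)
  refine max_le_max ?_ le_rfl
  exact mul_le_mul_of_nonneg_left (by exact_mod_cast h2) hX.le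

theorem Fh_part (X Λ : ℝ) (hX : 0 < X) (hΛ : 0 < Λ) (n : ℕ) : X * ∑ l ∈ Finset.range n, Fh X Λ (l + 1) ≤ PP Λ (X * n) := by
  induction n with
  | zero =>
    simp only [Finset.range_zero, Finset.sum_empty, mul_zero, Nat.cast_zero]
    unfold PP
    rw [if_pos hΛ.le, zero_mul]
  | succ n ih =>
    rw [Finset.sum_range_succ, mul_add]
    have h1 := PP_step (Λ := Λ) (s := X * n) (t := X * (n + 1 : ℕ)) hΛ
      (mul_le_mul_of_nonneg_left (by push_cast; linarith) hX.le)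
    have h2 : X * (n + 1 : ℕ) - X * n = X := by push_cast; ring
    rw [h2] at h1
    have h3 : Fh X Λ (n + 1) = (max (X * (n + 1 : ℕ)) Λ) ^ (-(5 / 4) : ℝ) := by
      unfold Fh
      rw [if_neg (by omega)]
    rw [h3]
    linarith

theorem Fh_sum (X Λ : ℝ) (hX : 0 < X) (hΛ : 0 < Λ) : Summable (Fh X Λ) ∧ ∑' l, Fh X Λ l ≤ 5 * X⁻¹ * Λ ^ (-(1 / 4) : ℝ) := by
  have h1 : ∀ n : ℕ, ∑ l ∈ Finset.range n, Fh X Λ (l + 1) ≤ 5 * X⁻¹ * Λ ^ (-(1 / 4) : ℝ) := by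
    intro n
    have h2 := (Fh_part X Λ hX hΛ n).trans (PP_le hΛ)
    rw [mul_comm X, ← le_div_iff₀ hX] at h2
    refine h2.trans (le_of_eq ?_)
    field_simp
  have h3 : Summable fun l => Fh X Λ (l + 1) :=
    summable_of_sum_range_le (fun l => Fh_nonneg X Λ hΛ _) h1
  have h4 : Summable (Fh X Λ) := (summable_nat_add_iff 1).1 h3
  refine ⟨h4, ?_⟩
  rw [h4.tsum_eq_zero_add]
  have h5 : Fh X Λ 0 = 0 := by
    unfold Fh
    rw [if_pos rfl]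
  rw [h5, zero_add]
  exact Real.tsum_le_of_sum_range_le (fun l => Fh_nonneg X Λ hΛ _) h1

/-- The class norm of the long part. -/
theorem cls_high (m q : ℕ) (hm : 1 ≤ m) (hq : q ∈ m.divisors) [NeZero (m / q)] :
    ∑ κ : ZMod (m / q), (∑' l : ℕ, (if (l : ZMod (m / q)) = κ then Fh ((q : ℝ) ^ 2) m l else 0)) ^ 2 ≤
      60 * ((q : ℝ)⁻¹ * (m : ℝ) ^ (-(3 / 4) : ℝ)) ^ 2 := by
  have hm0 : (0 : ℝ) < m := by exact_mod_cast hm
  have hq1 : 1 ≤ q := Nat.pos_of_mem_divisors hq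
  have hq0 : (0 : ℝ) < q := by exact_mod_cast hq1
  have hq1' : (1 : ℝ) ≤ q := by exact_mod_cast hq1
  have hX : (0 : ℝ) < (q : ℝ) ^ 2 := by positivity
  obtain ⟨hs, hsum⟩ := Fh_sum ((q : ℝ) ^ 2) m hX hm0
  have hsq : ∀ l, Fh ((q : ℝ) ^ 2) m l ^ 2 ≤ (m : ℝ) ^ (-(5 / 4) : ℝ) * Fh ((q : ℝ) ^ 2) m l := by
    intro l
    rw [sq]
    exact mul_le_mul_of_nonneg_right (Fh_le _ _ hm0 l) (Fh_nonneg _ _ hm0 l)
  have hs2 : Summable fun l => Fh ((q : ℝ) ^ 2) m l ^ 2 :=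
    Summable.of_nonneg_of_le (fun l => sq_nonneg _) hsq (hs.mul_left _)
  refine (cls_le (m / q) _ (Fh_nonneg _ _ hm0) (Fh_anti _ _ hX hm0) hs hs2).trans ?_
  have h1 : ∑' l, Fh ((q : ℝ) ^ 2) m l ^ 2 ≤ (m : ℝ) ^ (-(5 / 4) : ℝ) * (5 * ((q : ℝ) ^ 2)⁻¹ * (m : ℝ) ^ (-(1 / 4) : ℝ)) := by
    refine (Summable.tsum_le_tsum hsq hs2 (hs.mul_left _)).trans ?_
    rw [tsum_mul_left]
    exact mul_le_mul_of_nonneg_left hsum (Real.rpow_nonneg hm0.le _)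
  have hc : ((m / q : ℕ) : ℝ) = (m : ℝ) / q := Nat.cast_div (Nat.dvd_of_mem_divisors hq) hq0.ne'
  have h2 : (∑' l, Fh ((q : ℝ) ^ 2) m l) ^ 2 ≤ (5 * ((q : ℝ) ^ 2)⁻¹ * (m : ℝ) ^ (-(1 / 4) : ℝ)) ^ 2 :=
    pow_le_pow_left₀ (tsum_nonneg (Fh_nonneg _ _ hm0)) hsum 2
  have h3 : (m : ℝ) ^ (-(5 / 4) : ℝ) * (m : ℝ) ^ (-(1 / 4) : ℝ) = (m : ℝ) ^ (-(3 / 2) : ℝ) := by
    rw [← Real.rpow_add hm0]; norm_num
  have h4 : ((m : ℝ) ^ (-(1 / 4) : ℝ)) ^ 2 = (m : ℝ) ^ (-(3 / 2) : ℝ) * m := by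
    rw [← Real.rpow_natCast, ← Real.rpow_mul hm0.le, ← Real.rpow_add_one hm0.ne']; norm_num
  have h5 : ((m : ℝ) ^ (-(3 / 4) : ℝ)) ^ 2 = (m : ℝ) ^ (-(3 / 2) : ℝ) := by
    rw [← Real.rpow_natCast, ← Real.rpow_mul hm0.le]; norm_num
  obtain ⟨Y, hY⟩ : ∃ Y : ℝ, Y = (m : ℝ) ^ (-(3 / 2) : ℝ) := ⟨_, rfl⟩
  have hY0 : 0 ≤ Y := by rw [hY]; exact Real.rpow_nonneg hm0.le _
  have h6 : 2 * ∑' l, Fh ((q : ℝ) ^ 2) m l ^ 2 ≤ 10 * (((q : ℝ)⁻¹) ^ 2 * Y) := by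
    have e : (m : ℝ) ^ (-(5 / 4) : ℝ) * (5 * ((q : ℝ) ^ 2)⁻¹ * (m : ℝ) ^ (-(1 / 4) : ℝ)) = 5 * (((q : ℝ)⁻¹) ^ 2 * Y) := by
      rw [hY, ← h3, inv_pow]; ring
    rw [e] at h1
    linarith
  have h7 : 2 * (∑' l, Fh ((q : ℝ) ^ 2) m l) ^ 2 / ((m / q : ℕ) : ℝ) ≤ 50 * (((q : ℝ)⁻¹) ^ 2 * Y) := by
    rw [hc]
    have e : 2 * (5 * ((q : ℝ) ^ 2)⁻¹ * (m : ℝ) ^ (-(1 / 4) : ℝ)) ^ 2 / ((m : ℝ) / q) = 50 * (((q : ℝ)⁻¹) ^ 2 * Y) * (q : ℝ)⁻¹ := by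
      rw [mul_pow, h4, ← hY]
      field_simp
      ring
    have e2 : 50 * (((q : ℝ)⁻¹) ^ 2 * Y) * (q : ℝ)⁻¹ ≤ 50 * (((q : ℝ)⁻¹) ^ 2 * Y) :=
      mul_le_of_le_one_right (by positivity) (inv_le_one_of_one_le₀ hq1')
    refine le_trans ?_ (e.le.trans e2)
    gcongr
  have h8 : 60 * ((q : ℝ)⁻¹ * (m : ℝ) ^ (-(3 / 4) : ℝ)) ^ 2 = 60 * (((q : ℝ)⁻¹) ^ 2 * Y) := by
    rw [mul_pow, h5, hY]
  rw [h8]
  linarith

/-! ## The short part -/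

/-- The function `(q² l)^{-1/2}` for `q² l ≤ m`. -/
noncomputable def Fl (q m : ℕ) (l : ℕ) : ℝ := if 1 ≤ l ∧ q ^ 2 * l ≤ m then ((q : ℝ) ^ 2 * l) ^ (-(1 / 2) : ℝ) else 0

theorem Fl_nonneg (q m l : ℕ) : 0 ≤ Fl q m l := by
  unfold Fl
  split_ifs
  · positivity
  · exact le_rfl

theorem Fl_fin (q m : ℕ) (hq : 1 ≤ q) (l : ℕ) (h : l ∉ Finset.Icc 1 (m / q ^ 2)) : Fl q m l = 0 := by
  unfold Fl
  rw [if_neg]
  rintro ⟨h1, h2⟩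
  apply h
  rw [Finset.mem_Icc]
  refine ⟨h1, ?_⟩
  rw [Nat.le_div_iff_mul_le (by positivity), mul_comm]
  exact h2

theorem Fl_summable (q m : ℕ) (hq : 1 ≤ q) : Summable (Fl q m) :=
  summable_of_ne_finset_zero (s := Finset.Icc 1 (m / q ^ 2)) fun l h => Fl_fin q m hq l h

theorem cls_low (m q : ℕ) (hm : 1 ≤ m) (hq : q ∈ m.divisors) [NeZero (m / q)] :
    ∑ κ : ZMod (m / q), (∑' l : ℕ, (if (l : ZMod (m / q)) = κ then Fl q m l else 0)) ^ 2 ≤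
      (10 + 2 * Real.log m) * ((q : ℝ)⁻¹) ^ 2 := by
  have hm0 : (0 : ℝ) < m := by exact_mod_cast hm
  have hq1 : 1 ≤ q := Nat.pos_of_mem_divisors hq
  have hq0 : (0 : ℝ) < q := by exact_mod_cast hq1
  have hq1' : (1 : ℝ) ≤ q := by exact_mod_cast hq1
  have hc : ((m / q : ℕ) : ℝ) = (m : ℝ) / q := Nat.cast_div (Nat.dvd_of_mem_divisors hq) hq0.ne'
  have h1 : ∀ κ : ZMod (m / q), ∑' l : ℕ, (if (l : ZMod (m / q)) = κ then Fl q m l else 0) =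
      (q : ℝ)⁻¹ * ∑ n ∈ (Finset.Icc 1 (m / q ^ 2)).filter (fun n : ℕ => (n : ZMod (m / q)) = κ), (n : ℝ) ^ (-(1 / 2) : ℝ) := by
    intro κ
    rw [tsum_eq_sum (s := Finset.Icc 1 (m / q ^ 2)), Finset.sum_filter, Finset.mul_sum]
    · refine Finset.sum_congr rfl fun l hl => ?_
      by_cases h : (l : ZMod (m / q)) = κ
      · rw [if_pos h, if_pos h]
        rw [Finset.mem_Icc, Nat.le_div_iff_mul_le (by positivity), mul_comm] at hl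
        unfold Fl
        rw [if_pos hl, Real.mul_rpow (by positivity) (Nat.cast_nonneg l), ← Real.rpow_natCast, ← Real.rpow_mul hq0.le]
        congr 1
        rw [← Real.rpow_neg_one]
        norm_num
      · rw [if_neg h, if_neg h, mul_zero]
    · intro l hl
      rw [Fl_fin q m hq1 l hl]
      simp
  have h2 := class_sum (m / q) (m / q ^ 2)
  simp only [h1, mul_pow]
  rw [← Finset.mul_sum, mul_comm]
  refine mul_le_mul_of_nonneg_right (h2.trans ?_) (by positivity)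
  have h3 : Real.log ((m / q ^ 2 : ℕ) : ℝ) ≤ Real.log m := by
    rcases Nat.eq_zero_or_pos (m / q ^ 2) with h | h
    · rw [h, Nat.cast_zero, Real.log_zero]
      exact Real.log_nonneg (by exact_mod_cast hm)
    · exact Real.log_le_log (by exact_mod_cast h) (by exact_mod_cast Nat.div_le_self _ _)
  have h4 : 8 * ((m / q ^ 2 : ℕ) : ℝ) / ((m / q : ℕ) : ℝ) ≤ 8 := by
    rw [hc, div_le_iff₀ (by positivity)]
    have h5 : ((m / q ^ 2 : ℕ) : ℝ) ≤ (m : ℝ) / q := by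
      refine (Nat.cast_div_le (n := q ^ 2)).trans ?_
      push_cast
      refine div_le_div_of_nonneg_left hm0.le hq0 ?_
      nlinarith
    linarith
  linarith

/-! ## The side of `n` -/

theorem cls_B (m q N : ℕ) (hm : 1 ≤ m) (hq : q ∈ m.divisors) [NeZero (m / q)] (hN : 1 ≤ N) (S : Finset ℕ) (hS : S ⊆ Finset.Icc 1 N)
    (b : ℕ → ℝ) (M : ℝ) (hb0 : ∀ n ∈ S, 0 ≤ b n) (hb : ∀ n ∈ S, b n ≤ M * (n : ℝ) ^ (-(1 / 2) : ℝ)) (hM : 0 ≤ M) :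
    ∑ κ : ZMod (m / q), (∑ n ∈ S, if ((n : ℕ) : ZMod (m / q)) = κ then b n else 0) ^ 2 ≤
      q * (M ^ 2 * ((10 + 2 * Real.log N) * (1 + N / m))) := by
  have hm0 : (0 : ℝ) < m := by exact_mod_cast hm
  have hq1 : 1 ≤ q := Nat.pos_of_mem_divisors hq
  have hq0 : (0 : ℝ) < q := by exact_mod_cast hq1
  have hq1' : (1 : ℝ) ≤ q := by exact_mod_cast hq1
  have hN1 : (1 : ℝ) ≤ N := by exact_mod_cast hN
  have hc : ((m / q : ℕ) : ℝ) = (m : ℝ) / q := Nat.cast_div (Nat.dvd_of_mem_divisors hq) hq0.ne'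
  have h1 : ∀ κ : ZMod (m / q), (∑ n ∈ S, if ((n : ℕ) : ZMod (m / q)) = κ then b n else 0) ^ 2 ≤
      M ^ 2 * (∑ n ∈ (Finset.Icc 1 N).filter (fun n : ℕ => (n : ZMod (m / q)) = κ), (n : ℝ) ^ (-(1 / 2) : ℝ)) ^ 2 := by
    intro κ
    rw [← mul_pow]
    refine pow_le_pow_left₀ (Finset.sum_nonneg fun n hn => ?_) ?_ 2
    · split_ifs
      · exact hb0 n hn
      · exact le_rfl
    · rw [← Finset.sum_filter, Finset.mul_sum]
      refine (Finset.sum_le_sum fun n hn => hb n (Finset.mem_filter.1 hn).1).trans ?_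
      refine Finset.sum_le_sum_of_subset_of_nonneg (Finset.filter_subset_filter _ hS) fun n _ _ => ?_
      positivity
  refine (Finset.sum_le_sum fun κ _ => h1 κ).trans ?_
  rw [← Finset.mul_sum]
  have h2 := class_sum (m / q) N
  have h3 : 0 ≤ Real.log N := Real.log_nonneg hN1
  have h4 : 2 * (1 + Real.log N) + 8 * N / ((m / q : ℕ) : ℝ) ≤ q * ((10 + 2 * Real.log N) * (1 + N / m)) := by
    rw [hc]
    have e : 8 * (N : ℝ) / ((m : ℝ) / q) = q * (8 * (N / m)) := by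
      field_simp
    rw [e]
    have h5 : (0 : ℝ) ≤ (N : ℝ) / m := by positivity
    have h6 : 2 * (1 + Real.log N) ≤ q * (10 + 2 * Real.log N) := by
      have : 10 + 2 * Real.log N ≤ q * (10 + 2 * Real.log N) := le_mul_of_one_le_left (by linarith) hq1'
      linarith
    have h7 : 8 * ((N : ℝ) / m) ≤ (10 + 2 * Real.log N) * ((N : ℝ) / m) := mul_le_mul_of_nonneg_right (by linarith) h5
    have h8 : q * (8 * ((N : ℝ) / m)) ≤ q * ((10 + 2 * Real.log N) * ((N : ℝ) / m)) := mul_le_mul_of_nonneg_left h7 hq0.le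
    linarith
  calc M ^ 2 * ∑ κ : ZMod (m / q), (∑ n ∈ (Finset.Icc 1 N).filter (fun n : ℕ => (n : ZMod (m / q)) = κ), (n : ℝ) ^ (-(1 / 2) : ℝ)) ^ 2
      ≤ M ^ 2 * (q * ((10 + 2 * Real.log N) * (1 + N / m))) := mul_le_mul_of_nonneg_left (h2.trans h4) (sq_nonneg _)
    _ = _ := by ring

end Pool.Agent.LibSM56B
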