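import Pool.Agent.LibSM56B.B_01
import Pool.Agent.LibSM56B.B_03

/-! # SM56, part (B): one modulus, general weight of the product (helper31) -/

set_option autoImplicit false

namespace Pool.Agent.LibSM56B

open Complex
open Pool.Agent.LibSM47 Pool.Agent.LibSM56K
open Pool.Agent.LibSM47.SD (Tr pr Ph sl sg)

/-- The sign `-σ` acts on residues as an involution. -/
theorem sgn_inv (c : ℕ) (b : Bool × Bool × Bool) (x : ZMod c) :
    -(((sg b.1 * sg b.2.1 * sg b.2.2 : ℤ)) : ZMod c) * (-(((sg b.1 * sg b.2.1 * sg b.2.2 : ℤ)) : ZMod c) * x) = x := by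
  have h : ∀ t : Bool, sg t * sg t = 1 := by
    intro t
    cases t <;> simp [sg]
  have h1 : (sg b.1 * sg b.2.1 * sg b.2.2) * (sg b.1 * sg b.2.1 * sg b.2.2) = 1 := by
    calc _ = (sg b.1 * sg b.1) * (sg b.2.1 * sg b.2.1) * (sg b.2.2 * sg b.2.2) := by ring
      _ = 1 := by rw [h, h, h]; norm_num
  have h2 : (((sg b.1 * sg b.2.1 * sg b.2.2 : ℤ)) : ZMod c) * (((sg b.1 * sg b.2.1 * sg b.2.2 : ℤ)) : ZMod c) = 1 := by
    rw [← Int.cast_mul, h1, Int.cast_one]
  calc _ = ((((sg b.1 * sg b.2.1 * sg b.2.2 : ℤ)) : ZMod c) * (((sg b.1 * sg b.2.1 * sg b.2.2 : ℤ)) : ZMod c)) * x := by ring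
    _ = x := by rw [h2, one_mul]

/-- The coefficients. -/
noncomputable def gq (m q : ℕ) (w : ℕ → ℂ) (a : Tr) : ℂ :=
  if m ∣ (a.1 : ℕ) ∨ m ∣ (a.2.1 : ℕ) ∨ m ∣ (a.2.2 : ℕ) then 0 else (rho q a : ℂ) * w (pr a)

theorem gq_norm (m q : ℕ) (hm : 1 ≤ m) (hq : q ∈ m.divisors) (w : ℕ → ℂ) (a : Tr) :
    ‖gq m q w a‖ ≤ (m.divisors.card : ℝ) * (if q ^ 2 ∣ pr a then ‖w (pr a)‖ else 0) := by
  unfold gq
  split_ifs with h1 h2 h2
  · rw [norm_zero]; positivity
  · rw [norm_zero, mul_zero]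
  · rw [norm_mul, Complex.norm_natCast]
    refine mul_le_mul_of_nonneg_right ?_ (norm_nonneg _)
    have h3 : rho q a ≤ m.divisors.card := (rho_le q a).trans
      (Finset.card_le_card (Nat.divisors_subset_of_dvd (by omega) (Nat.dvd_of_mem_divisors hq)))
    exact_mod_cast h3
  · have h3 : rho q a = 0 := by
      by_contra h
      exact h2 (rho_sq q a h)
    rw [h3, Nat.cast_zero, zero_mul, norm_zero, mul_zero]

/-- The bound. -/
theorem B_gen (η : ℝ) (hη : 0 < η) : ∃ C : ℝ, 0 < C ∧ ∀ (m : ℕ) [NeZero m] (b : Bool × Bool × Bool) (w : ℕ → ℂ)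
    (F : ℕ → ℕ → ℝ) (K L : ℝ), 0 ≤ K → 0 ≤ L → (∀ q ∈ m.divisors, ∀ l, 0 ≤ F q l) → (∀ q ∈ m.divisors, Summable (F q)) →
    (∀ q ∈ m.divisors, ∀ l : ℕ, 1 ≤ l → ((q ^ 2 * l : ℕ) : ℝ) ^ η * ‖w (q ^ 2 * l)‖ ≤ F q l) →
    (∀ q ∈ m.divisors, ∀ [NeZero (m / q)], ∑ κ : ZMod (m / q), (∑' l : ℕ, (if (l : ZMod (m / q)) = κ then F q l else 0)) ^ 2 ≤
      (K * (q : ℝ)⁻¹) ^ 2) →
    ∀ (S : Finset ℕ), (∀ n ∈ S, Nat.Coprime n m) → ∀ B : ℕ → ℂ,
    (∀ q ∈ m.divisors, ∀ [NeZero (m / q)], ∑ κ : ZMod (m / q), (∑ n ∈ S, if ((n : ℕ) : ZMod (m / q)) = κ then ‖B n‖ else 0) ^ 2 ≤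
      q * L ^ 2) →
    ‖∑ n ∈ S, B n * ∑' a : Tr, w (pr a) * FT m (Ph m ((n : ℕ) : ZMod m)) (sl m b a)‖ ≤
      C * (m.divisors.card : ℝ) ^ 2 * (m : ℝ) ^ 2 * K * L := by
  classical
  obtain ⟨C, hC, hfib⟩ := tr_fiber η hη
  refine ⟨C, hC, ?_⟩
  intro m _ b w F K L hK hL hF0 hFs hFw hFc S hS B hB
  have hm : 1 ≤ m := Nat.one_le_iff_ne_zero.2 (NeZero.ne m)
  have hm0 : (0 : ℝ) < m := by exact_mod_cast hm
  obtain ⟨d, hd⟩ : ∃ d : ℝ, d = (m.divisors.card : ℝ) := ⟨_, rfl⟩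
  have hd0 : 0 ≤ d := by rw [hd]; positivity
  -- sums over triples along progressions
  have hprog : ∀ q ∈ m.divisors, ∀ Q : ℕ → Prop, ∀ [DecidablePred Q],
      Summable (fun a : Tr => if q ^ 2 ∣ pr a ∧ Q (pr a / q ^ 2) then ‖w (pr a)‖ else 0) ∧
      ∑' a : Tr, (if q ^ 2 ∣ pr a ∧ Q (pr a / q ^ 2) then ‖w (pr a)‖ else 0) ≤
        C * ∑' l : ℕ, if Q l then F q l else 0 := by
    intro q hq Q _
    have hq1 : 1 ≤ q := Nat.pos_of_mem_divisors hq
    have hq2 : 0 < q ^ 2 := by positivity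
    obtain ⟨G, hG⟩ : ∃ G : ℕ → ℝ, G = fun p => if p ≠ 0 ∧ q ^ 2 ∣ p ∧ Q (p / q ^ 2) then ‖w p‖ else 0 := ⟨_, rfl⟩
    have hG0 : ∀ p, 0 ≤ G p := by
      intro p
      rw [hG]
      dsimp only
      split_ifs
      · exact norm_nonneg _
      · exact le_rfl
    have hinj : Function.Injective fun l : ℕ => q ^ 2 * l := fun x y h => Nat.eq_of_mul_eq_mul_left hq2 h
    have hout : ∀ p ∉ Set.range (fun l : ℕ => q ^ 2 * l), (fun p : ℕ => (p : ℝ) ^ η * G p) p = 0 := by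
      intro p hp
      dsimp only
      rw [hG]
      dsimp only
      rw [if_neg, mul_zero]
      rintro ⟨-, ⟨l, hl⟩, -⟩
      exact hp ⟨l, hl.symm⟩
    have hcomp : ∀ l : ℕ, ((q ^ 2 * l : ℕ) : ℝ) ^ η * G (q ^ 2 * l) ≤ if Q l then F q l else 0 := by
      intro l
      rw [hG]
      dsimp only
      rw [Nat.mul_div_cancel_left l hq2]
      by_cases hl : l = 0
      · subst hl
        rw [if_neg (by simp), mul_zero]
        split_ifs
        · exact hF0 q hq 0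
        · exact le_rfl
      · by_cases h : Q l
        · rw [if_pos h, if_pos ⟨Nat.mul_ne_zero hq2.ne' hl, dvd_mul_right _ _, h⟩]
          exact hFw q hq l (Nat.one_le_iff_ne_zero.2 hl)
        · rw [if_neg h, if_neg (fun h' => h h'.2.2), mul_zero]
    have hF1 : Summable fun l : ℕ => if Q l then F q l else 0 := by
      refine Summable.of_nonneg_of_le (fun l => ?_) (fun l => ?_) (hFs q hq)
      · split_ifs
        · exact hF0 q hq l
        · exact le_rfl
      · split_ifs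
        · exact le_rfl
        · exact hF0 q hq l
    have hc1 : Summable fun l : ℕ => ((q ^ 2 * l : ℕ) : ℝ) ^ η * G (q ^ 2 * l) :=
      Summable.of_nonneg_of_le (fun l => mul_nonneg (Real.rpow_nonneg (Nat.cast_nonneg _) _) (hG0 _)) hcomp hF1
    have hs : Summable fun p : ℕ => (p : ℝ) ^ η * G p := (hinj.summable_iff hout).1 hc1
    obtain ⟨h1, h2⟩ := hfib G hG0 hs
    have hGa : (fun a : Tr => G (pr a)) = fun a : Tr => if q ^ 2 ∣ pr a ∧ Q (pr a / q ^ 2) then ‖w (pr a)‖ else 0 := by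
      funext a
      rw [hG]
      dsimp only
      have h0 : pr a ≠ 0 := (SD.pr_pos a).ne'
      by_cases h : q ^ 2 ∣ pr a ∧ Q (pr a / q ^ 2)
      · rw [if_pos h, if_pos ⟨h0, h⟩]
      · rw [if_neg h, if_neg (fun h' => h h'.2)]
    rw [hGa] at h1 h2
    refine ⟨h1, h2.trans (mul_le_mul_of_nonneg_left ?_ hC.le)⟩
    have h3 : ∑' p : ℕ, (p : ℝ) ^ η * G p = ∑' l : ℕ, ((q ^ 2 * l : ℕ) : ℝ) ^ η * G (q ^ 2 * l) := by
      refine (hinj.tsum_eq (f := fun p : ℕ => (p : ℝ) ^ η * G p) ?_).symm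
      intro p hp
      by_contra h
      exact hp (hout p h)
    rw [h3]
    exact Summable.tsum_le_tsum hcomp hc1 hF1
  -- summability
  have hgs : ∀ q ∈ m.divisors, Summable fun a : Tr => ‖gq m q w a‖ := by
    intro q hq
    have h1 := (hprog q hq (fun _ => True)).1
    refine Summable.of_nonneg_of_le (fun a => norm_nonneg _) (fun a => ?_) (h1.mul_left d)
    refine (gq_norm m q hm hq w a).trans (le_of_eq ?_)
    rw [hd]
    congr 1
    by_cases h : q ^ 2 ∣ pr a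
    · rw [if_pos h, if_pos ⟨h, trivial⟩]
    · rw [if_neg h, if_neg (fun h' => h h'.1)]
  have hSk : ∀ q : ℕ, ∀ x : ZMod (m / q), ‖Sk (m / q) 1 x‖ ≤ m := by
    intro q x
    refine (Sk_norm (m / q) 1 x).trans ?_
    exact_mod_cast Nat.div_le_self m q
  -- the formula
  have hform : ∀ n ∈ S, ∑' a : Tr, w (pr a) * FT m (Ph m ((n : ℕ) : ZMod m)) (sl m b a) =
      (m : ℂ) * ∑ q ∈ m.divisors, (q : ℂ) * ∑' a : Tr, gq m q w a * Sk (m / q) 1
        ((-(((sg b.1 * sg b.2.1 * sg b.2.2 : ℤ)) : ZMod (m / q)) * ((pr a / q ^ 2 : ℕ) : ZMod (m / q))) *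
          (n : ZMod (m / q))⁻¹) := by
    intro n hn
    have hu : IsUnit ((n : ℕ) : ZMod m) := (ZMod.isUnit_iff_coprime n m).2 (hS n hn)
    have h1 : ∀ a : Tr, w (pr a) * FT m (Ph m ((n : ℕ) : ZMod m)) (sl m b a) =
        ∑ q ∈ m.divisors, (m : ℂ) * ((q : ℂ) * (gq m q w a * Sk (m / q) 1
        ((-(((sg b.1 * sg b.2.1 * sg b.2.2 : ℤ)) : ZMod (m / q)) * ((pr a / q ^ 2 : ℕ) : ZMod (m / q))) *
          (n : ZMod (m / q))⁻¹))) := by
      intro a
      by_cases h : m ∣ (a.1 : ℕ) ∨ m ∣ (a.2.1 : ℕ) ∨ m ∣ (a.2.2 : ℕ)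
      · have h2 : FT m (Ph m ((n : ℕ) : ZMod m)) (sl m b a) = 0 := by
          refine SD.FT_Ph_zero m _ hu _ ?_
          unfold sl
          rcases h with h | h | h
          · left
            rw [(ZMod.natCast_eq_zero_iff _ _).2 h, mul_zero]
          · right; left
            rw [(ZMod.natCast_eq_zero_iff _ _).2 h, mul_zero]
          · right; right
            rw [(ZMod.natCast_eq_zero_iff _ _).2 h, mul_zero]
        rw [h2, mul_zero]
        symm
        refine Finset.sum_eq_zero fun q _ => ?_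
        unfold gq
        rw [if_pos h]
        ring
      · push Not at h
        rw [FT_Ph_sl m n (hS n hn) b a h.1 h.2.1 h.2.2, Finset.mul_sum, Finset.mul_sum]
        refine Finset.sum_congr rfl fun q _ => ?_
        unfold gq
        rw [if_neg (by push Not; exact h)]
        ring
    rw [tsum_congr h1, Summable.tsum_finsetSum]
    · rw [Finset.mul_sum]
      refine Finset.sum_congr rfl fun q _ => ?_
      rw [tsum_mul_left, tsum_mul_left]
    · intro q hq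
      refine Summable.mul_left _ (Summable.mul_left _ ?_)
      refine Summable.of_norm_bounded ((hgs q hq).mul_right (m : ℝ)) fun a => ?_
      rw [norm_mul]
      exact mul_le_mul_of_nonneg_left (hSk q _) (norm_nonneg _)
  have hswap : ∑ n ∈ S, B n * ∑' a : Tr, w (pr a) * FT m (Ph m ((n : ℕ) : ZMod m)) (sl m b a) =
      ∑ q ∈ m.divisors, (m : ℂ) * (q : ℂ) * ∑ n ∈ S, B n * ∑' a : Tr, gq m q w a * Sk (m / q) 1
        ((-(((sg b.1 * sg b.2.1 * sg b.2.2 : ℤ)) : ZMod (m / q)) * ((pr a / q ^ 2 : ℕ) : ZMod (m / q))) *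
          (n : ZMod (m / q))⁻¹) := by
    rw [Finset.sum_congr rfl fun n hn => by rw [hform n hn, Finset.mul_sum, Finset.mul_sum], Finset.sum_comm]
    refine Finset.sum_congr rfl fun q _ => ?_
    rw [Finset.mul_sum]
    refine Finset.sum_congr rfl fun n _ => ?_
    ring
  rw [hswap]
  refine (norm_sum_le _ _).trans ?_
  -- one divisor
  have hone : ∀ q ∈ m.divisors, ‖(m : ℂ) * (q : ℂ) * ∑ n ∈ S, B n * ∑' a : Tr, gq m q w a * Sk (m / q) 1
        ((-(((sg b.1 * sg b.2.1 * sg b.2.2 : ℤ)) : ZMod (m / q)) * ((pr a / q ^ 2 : ℕ) : ZMod (m / q))) *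
          (n : ZMod (m / q))⁻¹)‖ ≤ C * d * (m : ℝ) ^ 2 * K * L := by
    intro q hq
    have hq1 : 1 ≤ q := Nat.pos_of_mem_divisors hq
    have hq0 : (0 : ℝ) < q := by exact_mod_cast hq1
    have hq1' : (1 : ℝ) ≤ q := by exact_mod_cast hq1
    have hdvd : q ∣ m := Nat.dvd_of_mem_divisors hq
    have hdm : m / q ∣ m := Nat.div_dvd_of_dvd hdvd
    have hmq : 0 < m / q := Nat.div_pos (Nat.le_of_dvd (by omega) hdvd) hq1
    have : NeZero (m / q) := ⟨hmq.ne'⟩
    have hc : ((m / q : ℕ) : ℝ) = (m : ℝ) / q := Nat.cast_div hdvd hq0.ne'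
    have hop := op_series (m / q) (gq m q w) (hgs q hq)
      (fun a => -(((sg b.1 * sg b.2.1 * sg b.2.2 : ℤ)) : ZMod (m / q)) * ((pr a / q ^ 2 : ℕ) : ZMod (m / q))) S
      (fun n hn => Nat.Coprime.coprime_dvd_right hdm (hS n hn)) B
    have hA : ∑ κ : ZMod (m / q), (∑' a : Tr, if -(((sg b.1 * sg b.2.1 * sg b.2.2 : ℤ)) : ZMod (m / q)) *
        ((pr a / q ^ 2 : ℕ) : ZMod (m / q)) = κ then ‖gq m q w a‖ else 0) ^ 2 ≤ (d * C * (K * (q : ℝ)⁻¹)) ^ 2 := by
      have h1 : ∀ κ : ZMod (m / q), (∑' a : Tr, if -(((sg b.1 * sg b.2.1 * sg b.2.2 : ℤ)) : ZMod (m / q)) *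
          ((pr a / q ^ 2 : ℕ) : ZMod (m / q)) = κ then ‖gq m q w a‖ else 0) ^ 2 ≤
          (d * C) ^ 2 * (∑' l : ℕ, (if (l : ZMod (m / q)) = -(((sg b.1 * sg b.2.1 * sg b.2.2 : ℤ)) : ZMod (m / q)) * κ
            then F q l else 0)) ^ 2 := by
        intro κ
        rw [← mul_pow]
        refine pow_le_pow_left₀ (tsum_nonneg fun a => ?_) ?_ 2
        · split_ifs
          · exact norm_nonneg _
          · exact le_rfl
        · obtain ⟨h2, h3⟩ := hprog q hq (fun l => (l : ZMod (m / q)) = -(((sg b.1 * sg b.2.1 * sg b.2.2 : ℤ)) : ZMod (m / q)) * κ)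
          have h4 : ∀ a : Tr, (if -(((sg b.1 * sg b.2.1 * sg b.2.2 : ℤ)) : ZMod (m / q)) *
              ((pr a / q ^ 2 : ℕ) : ZMod (m / q)) = κ then ‖gq m q w a‖ else 0) ≤
              d * (if q ^ 2 ∣ pr a ∧ ((pr a / q ^ 2 : ℕ) : ZMod (m / q)) =
                -(((sg b.1 * sg b.2.1 * sg b.2.2 : ℤ)) : ZMod (m / q)) * κ then ‖w (pr a)‖ else 0) := by
            intro a
            by_cases h5 : -(((sg b.1 * sg b.2.1 * sg b.2.2 : ℤ)) : ZMod (m / q)) * ((pr a / q ^ 2 : ℕ) : ZMod (m / q)) = κ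
            · rw [if_pos h5]
              have h6 : ((pr a / q ^ 2 : ℕ) : ZMod (m / q)) =
                  -(((sg b.1 * sg b.2.1 * sg b.2.2 : ℤ)) : ZMod (m / q)) * κ := by
                rw [← h5, sgn_inv]
              refine (gq_norm m q hm hq w a).trans (le_of_eq ?_)
              rw [← hd]
              congr 1
              by_cases h : q ^ 2 ∣ pr a
              · rw [if_pos h, if_pos ⟨h, h6⟩]
              · rw [if_neg h, if_neg (fun h' => h h'.1)]
            · rw [if_neg h5]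
              refine mul_nonneg hd0 ?_
              split_ifs
              · exact norm_nonneg _
              · exact le_rfl
          have h7 : Summable (fun a : Tr => if -(((sg b.1 * sg b.2.1 * sg b.2.2 : ℤ)) : ZMod (m / q)) *
              ((pr a / q ^ 2 : ℕ) : ZMod (m / q)) = κ then ‖gq m q w a‖ else 0) := by
            refine Summable.of_nonneg_of_le (fun a => ?_) (fun a => ?_) (hgs q hq)
            · split_ifs
              · exact norm_nonneg _
              · exact le_rfl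
            · split_ifs
              · exact le_rfl
              · exact norm_nonneg _
          refine (Summable.tsum_le_tsum h4 h7 (h2.mul_left d)).trans ?_
          rw [tsum_mul_left, mul_assoc d C]
          exact mul_le_mul_of_nonneg_left h3 hd0
      refine (Finset.sum_le_sum fun κ _ => h1 κ).trans ?_
      rw [← Finset.mul_sum, mul_pow (d * C)]
      refine mul_le_mul_of_nonneg_left ?_ (sq_nonneg _)
      have h8 := hFc q hq
      refine le_trans (le_of_eq ?_) h8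
      refine Finset.sum_nbij (fun κ => -(((sg b.1 * sg b.2.1 * sg b.2.2 : ℤ)) : ZMod (m / q)) * κ) (fun _ _ => Finset.mem_univ _) ?_ ?_
        (fun _ _ => rfl)
      · intro x _ y _ h
        have h9 := congrArg (fun z => -(((sg b.1 * sg b.2.1 * sg b.2.2 : ℤ)) : ZMod (m / q)) * z) h
        simp only [sgn_inv] at h9
        exact h9
      · intro y _
        exact ⟨-(((sg b.1 * sg b.2.1 * sg b.2.2 : ℤ)) : ZMod (m / q)) * y, Finset.mem_coe.2 (Finset.mem_univ _), sgn_inv _ b y⟩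
    have hA' : √(∑ κ : ZMod (m / q), (∑' a : Tr, if -(((sg b.1 * sg b.2.1 * sg b.2.2 : ℤ)) : ZMod (m / q)) *
        ((pr a / q ^ 2 : ℕ) : ZMod (m / q)) = κ then ‖gq m q w a‖ else 0) ^ 2) ≤ d * C * (K * (q : ℝ)⁻¹) :=
      Real.sqrt_le_iff.2 ⟨by positivity, hA⟩
    have hB' : √(∑ κ : ZMod (m / q), (∑ n ∈ S, if ((n : ℕ) : ZMod (m / q)) = κ then ‖B n‖ else 0) ^ 2) ≤ q * L := by
      refine Real.sqrt_le_iff.2 ⟨by positivity, (hB q hq).trans ?_⟩
      have h1 : (q : ℝ) * L ^ 2 ≤ q * (q * L ^ 2) :=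
        mul_le_mul_of_nonneg_left (le_mul_of_one_le_left (sq_nonneg _) hq1') hq0.le
      calc (q : ℝ) * L ^ 2 ≤ q * (q * L ^ 2) := h1
        _ = _ := by ring
    rw [norm_mul, norm_mul, Complex.norm_natCast, Complex.norm_natCast]
    calc (m : ℝ) * q * _ ≤ (m : ℝ) * q * (((m / q : ℕ) : ℝ) * (d * C * (K * (q : ℝ)⁻¹)) * (q * L)) := by
          refine mul_le_mul_of_nonneg_left (hop.trans ?_) (by positivity)
          gcongr
      _ = (m : ℝ) * q * (((m : ℝ) / q) * (d * C * (K * (q : ℝ)⁻¹)) * (q * L)) := by rw [hc]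
      _ = C * d * (m : ℝ) ^ 2 * K * L := by
          field_simp
  refine (Finset.sum_le_sum hone).trans ?_
  rw [Finset.sum_const, nsmul_eq_mul, ← hd]
  exact le_of_eq (by ring)

end Pool.Agent.LibSM56B
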