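import Pool.Agent.LibSM56B.B_04
import Pool.Agent.LibSM56B.B_05
import Pool.Agent.LibSM56A.A_D

/-! # SM56, part (B): the short and the long dual sums of one modulus (helper31) -/

set_option autoImplicit false

namespace Pool.Agent.LibSM56B

open Complex
open Pool.Agent.LibSM47 Pool.Agent.LibSM56K Pool.Agent.LibSM56A
open Pool.Agent.LibSM47.SD (Tr pr Ph sl sg)

/-- `√(10 + 2 log x) ≤ C x^η`. -/
theorem log_sqrt (η : ℝ) (hη : 0 < η) : ∃ C : ℝ, 0 < C ∧ ∀ x : ℕ, 1 ≤ x → √(10 + 2 * Real.log x) ≤ C * (x : ℝ) ^ η := by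
  refine ⟨√(10 + 1 / η), by positivity, fun x hx => ?_⟩
  have hx1 : (1 : ℝ) ≤ x := by exact_mod_cast hx
  have hx0 : (0 : ℝ) ≤ x := by linarith
  have h1 : Real.log x ≤ (x : ℝ) ^ (2 * η) / (2 * η) := Real.log_le_rpow_div hx0 (by positivity)
  have h2 : (1 : ℝ) ≤ (x : ℝ) ^ (2 * η) := Real.one_le_rpow hx1 (by positivity)
  have h3 : 10 + 2 * Real.log x ≤ (10 + 1 / η) * ((x : ℝ) ^ η) ^ 2 := by
    have e : ((x : ℝ) ^ η) ^ 2 = (x : ℝ) ^ (2 * η) := by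
      rw [← Real.rpow_natCast, ← Real.rpow_mul hx0]
      congr 1
      push_cast
      ring
    rw [e]
    have e2 : 2 * ((x : ℝ) ^ (2 * η) / (2 * η)) = 1 / η * (x : ℝ) ^ (2 * η) := by
      field_simp
    nlinarith
  calc √(10 + 2 * Real.log x) ≤ √((10 + 1 / η) * ((x : ℝ) ^ η) ^ 2) := Real.sqrt_le_sqrt h3
    _ = √(10 + 1 / η) * (x : ℝ) ^ η := by
      rw [Real.sqrt_mul (by positivity), Real.sqrt_sq (Real.rpow_nonneg hx0 _)]

theorem div_sq (η : ℝ) (hη : 0 < η) : ∃ C : ℝ, 0 < C ∧ ∀ x : ℕ, 1 ≤ x → (x.divisors.card : ℝ) ^ 2 ≤ C * (x : ℝ) ^ η := by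
  obtain ⟨D, hD, h⟩ := card_div_le (η / 2) (by positivity)
  refine ⟨D ^ 2, by positivity, fun x hx => ?_⟩
  have hx0 : (0 : ℝ) ≤ x := Nat.cast_nonneg x
  calc ((x.divisors.card : ℝ)) ^ 2 ≤ (D * (x : ℝ) ^ (η / 2)) ^ 2 := pow_le_pow_left₀ (Nat.cast_nonneg _) (h x hx) 2
    _ = D ^ 2 * (x : ℝ) ^ η := by
      rw [mul_pow, ← Real.rpow_natCast ((x : ℝ) ^ (η / 2)) 2, ← Real.rpow_mul hx0]
      congr 2
      push_cast
      ring

theorem norm_cpow (p : ℕ) (hp : 1 ≤ p) (s : ℂ) : ‖(p : ℂ) ^ (-(1 - s))‖ = (p : ℝ) ^ (-(1 - s.re)) := by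
  have h : (p : ℂ) = ((p : ℝ) : ℂ) := by push_cast; rfl
  rw [h, Complex.norm_cpow_eq_rpow_re_of_pos (by exact_mod_cast hp)]
  simp

/-- The short dual sum. -/
theorem B_low (η : ℝ) (hη : 0 < η) : ∃ C : ℝ, 0 < C ∧ ∀ (m : ℕ) [NeZero m] (N : ℕ), 1 ≤ N → ∀ (b : B3) (S : Finset ℕ),
    S ⊆ Finset.Icc 1 N → (∀ n ∈ S, Nat.Coprime n m) → ∀ (B : ℕ → ℂ) (M : ℝ), 0 ≤ M →
    (∀ n ∈ S, ‖B n‖ ≤ M * (n : ℝ) ^ (-(1 / 2) : ℝ)) → ∀ s : ℂ, s.re = 1 / 2 →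
    ‖∑ n ∈ S, B n * DSle m ((n : ℕ) : ZMod m) b m (1 - s)‖ ≤
      C * M * (m : ℝ) ^ 2 * ((m : ℝ) ^ η * (N : ℝ) ^ η) * √(1 + N / m) := by
  obtain ⟨C1, hC1, h1⟩ := B_gen (η / 4) (by positivity)
  obtain ⟨C2, hC2, h2⟩ := log_sqrt (η / 4) (by positivity)
  obtain ⟨C3, hC3, h3⟩ := div_sq (η / 2) (by positivity)
  refine ⟨C1 * C3 * C2 * C2, by positivity, ?_⟩
  intro m _ N hN b S hSN hS B M hM hB s hs
  have hm : 1 ≤ m := Nat.one_le_iff_ne_zero.2 (NeZero.ne m)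
  have hm0 : (0 : ℝ) < m := by exact_mod_cast hm
  have hm1 : (1 : ℝ) ≤ m := by exact_mod_cast hm
  have hN1 : (1 : ℝ) ≤ N := by exact_mod_cast hN
  have hlm : 0 ≤ Real.log m := Real.log_nonneg hm1
  have hlN : 0 ≤ Real.log N := Real.log_nonneg hN1
  obtain ⟨w, hw⟩ : ∃ w : ℕ → ℂ, w = fun p => if p ≤ m then (p : ℂ) ^ (-(1 - s)) else 0 := ⟨_, rfl⟩
  have hDS : ∀ n : ℕ, DSle m ((n : ℕ) : ZMod m) b m (1 - s) = ∑' a : Tr, w (pr a) * FT m (Ph m ((n : ℕ) : ZMod m)) (sl m b a) := by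
    intro n
    unfold DSle
    rw [tsum_eq_sum (s := trLe m)]
    · refine Finset.sum_congr rfl fun a ha => ?_
      rw [hw]
      dsimp only
      rw [if_pos (mem_trLe.1 ha), mul_comm]
    · intro a ha
      rw [hw]
      dsimp only
      rw [if_neg (fun h => ha (mem_trLe.2 h)), zero_mul]
  rw [Finset.sum_congr rfl fun n _ => by rw [hDS n]]
  have hK : 0 ≤ (m : ℝ) ^ (η / 4) * √(10 + 2 * Real.log m) := by positivity
  have hL : 0 ≤ M * √((10 + 2 * Real.log N) * (1 + N / m)) := by positivity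
  have key := h1 m b w (fun q l => (m : ℝ) ^ (η / 4) * Fl q m l) ((m : ℝ) ^ (η / 4) * √(10 + 2 * Real.log m))
    (M * √((10 + 2 * Real.log N) * (1 + N / m))) hK hL
    (fun q _ l => mul_nonneg (by positivity) (Fl_nonneg q m l))
    (fun q hq => (Fl_summable q m (Nat.pos_of_mem_divisors hq)).mul_left _) ?_ ?_ S hS B ?_
  · refine key.trans ?_
    have e1 : √((10 + 2 * Real.log N) * (1 + N / m)) ≤ C2 * (N : ℝ) ^ (η / 4) * √(1 + N / m) := by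
      rw [Real.sqrt_mul (by positivity)]
      exact mul_le_mul_of_nonneg_right (h2 N hN) (Real.sqrt_nonneg _)
    have e2 : (N : ℝ) ^ (η / 4) ≤ (N : ℝ) ^ η := Real.rpow_le_rpow_of_exponent_le hN1 (by linarith)
    have e3 : (m : ℝ) ^ (η / 2) * ((m : ℝ) ^ (η / 4) * (m : ℝ) ^ (η / 4)) = (m : ℝ) ^ η := by
      rw [← Real.rpow_add hm0, ← Real.rpow_add hm0]
      congr 1
      ring
    calc C1 * (m.divisors.card : ℝ) ^ 2 * (m : ℝ) ^ 2 * ((m : ℝ) ^ (η / 4) * √(10 + 2 * Real.log m)) *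
          (M * √((10 + 2 * Real.log N) * (1 + N / m)))
        ≤ C1 * (C3 * (m : ℝ) ^ (η / 2)) * (m : ℝ) ^ 2 * ((m : ℝ) ^ (η / 4) * (C2 * (m : ℝ) ^ (η / 4))) *
          (M * (C2 * (N : ℝ) ^ η * √(1 + N / m))) := by
          have := h3 m hm
          have := h2 m hm
          have e4 : √((10 + 2 * Real.log N) * (1 + N / m)) ≤ C2 * (N : ℝ) ^ η * √(1 + N / m) := by
            refine e1.trans ?_
            gcongr
          gcongr
      _ = C1 * C3 * C2 * C2 * M * (m : ℝ) ^ 2 * (((m : ℝ) ^ (η / 2) * ((m : ℝ) ^ (η / 4) * (m : ℝ) ^ (η / 4))) * (N : ℝ) ^ η) *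
          √(1 + N / m) := by ring
      _ = _ := by rw [e3]
  · intro q hq l hl
    rw [hw]
    dsimp only
    have hq1 : 1 ≤ q := Nat.pos_of_mem_divisors hq
    have hp : 1 ≤ q ^ 2 * l := Nat.one_le_iff_ne_zero.2 (by positivity)
    by_cases h : q ^ 2 * l ≤ m
    · rw [if_pos h, norm_cpow _ hp, hs]
      unfold Fl
      rw [if_pos ⟨hl, h⟩]
      have h4 : ((q ^ 2 * l : ℕ) : ℝ) = (q : ℝ) ^ 2 * l := by push_cast; ring
      have h5 : ((q ^ 2 * l : ℕ) : ℝ) ≤ m := by exact_mod_cast h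
      rw [← h4]
      have h6 : -(1 - (1 / 2 : ℝ)) = -(1 / 2) := by norm_num
      rw [h6]
      refine mul_le_mul_of_nonneg_right (Real.rpow_le_rpow (Nat.cast_nonneg _) h5 (by positivity))
        (Real.rpow_nonneg (Nat.cast_nonneg _) _)
    · rw [if_neg h, norm_zero, mul_zero]
      exact mul_nonneg (by positivity) (Fl_nonneg q m l)
  · intro q hq _
    have h4 := cls_low m q hm hq
    have h5 : ∀ κ : ZMod (m / q), ∑' l : ℕ, (if (l : ZMod (m / q)) = κ then (m : ℝ) ^ (η / 4) * Fl q m l else 0) =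
        (m : ℝ) ^ (η / 4) * ∑' l : ℕ, (if (l : ZMod (m / q)) = κ then Fl q m l else 0) := by
      intro κ
      rw [← tsum_mul_left]
      refine tsum_congr fun l => ?_
      rw [mul_ite, mul_zero]
    simp only [h5, mul_pow]
    rw [← Finset.mul_sum, Real.sq_sqrt (by positivity), mul_assoc]
    exact mul_le_mul_of_nonneg_left h4 (by positivity)
  · intro q hq _
    have h4 := cls_B m q N hm hq hN S hSN (fun n => ‖B n‖) M (fun n _ => norm_nonneg _) hB hM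
    refine h4.trans (le_of_eq ?_)
    rw [mul_pow, Real.sq_sqrt (by positivity)]

/-- The long dual sum. -/
theorem B_high (η : ℝ) (hη : 0 < η) (hη1 : η ≤ 1) : ∃ C : ℝ, 0 < C ∧ ∀ (m : ℕ) [NeZero m] (N : ℕ), 1 ≤ N → ∀ (b : B3) (S : Finset ℕ),
    S ⊆ Finset.Icc 1 N → (∀ n ∈ S, Nat.Coprime n m) → ∀ (B : ℕ → ℂ) (M : ℝ), 0 ≤ M →
    (∀ n ∈ S, ‖B n‖ ≤ M * (n : ℝ) ^ (-(1 / 2) : ℝ)) → ∀ s : ℂ, s.re = -(1 / 2) →
    ‖∑ n ∈ S, B n * DSgt m ((n : ℕ) : ZMod m) b m (1 - s)‖ ≤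
      C * M * m * ((m : ℝ) ^ η * (N : ℝ) ^ η) * √(1 + N / m) := by
  obtain ⟨C1, hC1, h1⟩ := B_gen (η / 4) (by positivity)
  obtain ⟨C2, hC2, h2⟩ := log_sqrt (η / 4) (by positivity)
  obtain ⟨C3, hC3, h3⟩ := div_sq (η / 2) (by positivity)
  refine ⟨C1 * C3 * √60 * C2, by positivity, ?_⟩
  intro m _ N hN b S hSN hS B M hM hB s hs
  have hm : 1 ≤ m := Nat.one_le_iff_ne_zero.2 (NeZero.ne m)
  have hm0 : (0 : ℝ) < m := by exact_mod_cast hm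
  have hm1 : (1 : ℝ) ≤ m := by exact_mod_cast hm
  have hN1 : (1 : ℝ) ≤ N := by exact_mod_cast hN
  have hlN : 0 ≤ Real.log N := Real.log_nonneg hN1
  obtain ⟨w, hw⟩ : ∃ w : ℕ → ℂ, w = fun p => if p ≤ m then 0 else (p : ℂ) ^ (-(1 - s)) := ⟨_, rfl⟩
  have hDS : ∀ n : ℕ, DSgt m ((n : ℕ) : ZMod m) b m (1 - s) = ∑' a : Tr, w (pr a) * FT m (Ph m ((n : ℕ) : ZMod m)) (sl m b a) := by
    intro n
    unfold DSgt
    refine tsum_congr fun a => ?_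
    rw [hw]
    dsimp only
    split_ifs
    · rw [zero_mul]
    · rw [mul_comm]
  rw [Finset.sum_congr rfl fun n _ => by rw [hDS n]]
  have hK : 0 ≤ (m : ℝ) ^ (-(1 / 4) + η / 4) * (√60 * (m : ℝ) ^ (-(3 / 4) : ℝ)) := by positivity
  have hL : 0 ≤ M * √((10 + 2 * Real.log N) * (1 + N / m)) := by positivity
  have key := h1 m b w (fun q l => (m : ℝ) ^ (-(1 / 4) + η / 4) * Fh ((q : ℝ) ^ 2) m l)
    ((m : ℝ) ^ (-(1 / 4) + η / 4) * (√60 * (m : ℝ) ^ (-(3 / 4) : ℝ)))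
    (M * √((10 + 2 * Real.log N) * (1 + N / m))) hK hL
    (fun q _ l => mul_nonneg (by positivity) (Fh_nonneg _ _ hm0 l)) ?_ ?_ ?_ S hS B ?_
  · refine key.trans ?_
    have e1 : √((10 + 2 * Real.log N) * (1 + N / m)) ≤ C2 * (N : ℝ) ^ (η / 4) * √(1 + N / m) := by
      rw [Real.sqrt_mul (by positivity)]
      exact mul_le_mul_of_nonneg_right (h2 N hN) (Real.sqrt_nonneg _)
    have e2 : (N : ℝ) ^ (η / 4) ≤ (N : ℝ) ^ η := Real.rpow_le_rpow_of_exponent_le hN1 (by linarith)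
    have e3 : (m : ℝ) ^ (η / 2) * (m : ℝ) ^ 2 * ((m : ℝ) ^ (-(1 / 4) + η / 4) * (m : ℝ) ^ (-(3 / 4) : ℝ)) ≤ m * (m : ℝ) ^ η := by
      rw [← Real.rpow_natCast (m : ℝ) 2, ← Real.rpow_add hm0, ← Real.rpow_add hm0, ← Real.rpow_add hm0,
        ← Real.rpow_one_add' hm0.le (by positivity)]
      refine Real.rpow_le_rpow_of_exponent_le hm1 ?_
      push_cast
      linarith
    calc C1 * (m.divisors.card : ℝ) ^ 2 * (m : ℝ) ^ 2 * ((m : ℝ) ^ (-(1 / 4) + η / 4) * (√60 * (m : ℝ) ^ (-(3 / 4) : ℝ))) *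
          (M * √((10 + 2 * Real.log N) * (1 + N / m)))
        ≤ C1 * (C3 * (m : ℝ) ^ (η / 2)) * (m : ℝ) ^ 2 * ((m : ℝ) ^ (-(1 / 4) + η / 4) * (√60 * (m : ℝ) ^ (-(3 / 4) : ℝ))) *
          (M * (C2 * (N : ℝ) ^ η * √(1 + N / m))) := by
          have := h3 m hm
          have e4 : √((10 + 2 * Real.log N) * (1 + N / m)) ≤ C2 * (N : ℝ) ^ η * √(1 + N / m) := by
            refine e1.trans ?_
            gcongr
          gcongr
      _ = C1 * C3 * √60 * C2 * M * ((m : ℝ) ^ (η / 2) * (m : ℝ) ^ 2 * ((m : ℝ) ^ (-(1 / 4) + η / 4) * (m : ℝ) ^ (-(3 / 4) : ℝ))) *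
          (N : ℝ) ^ η * √(1 + N / m) := by ring
      _ ≤ C1 * C3 * √60 * C2 * M * (m * (m : ℝ) ^ η) * (N : ℝ) ^ η * √(1 + N / m) := by gcongr
      _ = _ := by ring
  · intro q hq
    have hq1 : 1 ≤ q := Nat.pos_of_mem_divisors hq
    exact (Fh_sum ((q : ℝ) ^ 2) m (by positivity) hm0).1.mul_left _
  · intro q hq l hl
    rw [hw]
    dsimp only
    have hq1 : 1 ≤ q := Nat.pos_of_mem_divisors hq
    have hp : 1 ≤ q ^ 2 * l := Nat.one_le_iff_ne_zero.2 (by positivity)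
    by_cases h : q ^ 2 * l ≤ m
    · rw [if_pos h, norm_zero, mul_zero]
      exact mul_nonneg (by positivity) (Fh_nonneg _ _ hm0 l)
    · rw [if_neg h, norm_cpow _ hp, hs]
      have h4 : ((q ^ 2 * l : ℕ) : ℝ) = (q : ℝ) ^ 2 * l := by push_cast; ring
      push Not at h
      have h5 : (m : ℝ) ≤ ((q ^ 2 * l : ℕ) : ℝ) := by exact_mod_cast h.le
      have h6 : (0 : ℝ) < ((q ^ 2 * l : ℕ) : ℝ) := by exact_mod_cast hp
      unfold Fh
      rw [if_neg (by omega), ← h4, max_eq_left h5]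
      obtain ⟨p, hpd⟩ : ∃ p : ℝ, p = ((q ^ 2 * l : ℕ) : ℝ) := ⟨_, rfl⟩
      rw [← hpd] at h5 h6 ⊢
      have h7 : p ^ (η / 4) * p ^ (-(1 - -(1 / 2 : ℝ))) = p ^ (-(1 / 4) + η / 4) * p ^ (-(5 / 4) : ℝ) := by
        rw [← Real.rpow_add h6, ← Real.rpow_add h6]
        congr 1
        ring
      rw [h7]
      exact mul_le_mul_of_nonneg_right (Real.rpow_le_rpow_of_nonpos hm0 h5 (by linarith)) (Real.rpow_nonneg h6.le _)
  · intro q hq _
    have h4 := cls_high m q hm hq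
    have h5 : ∀ κ : ZMod (m / q), ∑' l : ℕ, (if (l : ZMod (m / q)) = κ then (m : ℝ) ^ (-(1 / 4) + η / 4) * Fh ((q : ℝ) ^ 2) m l else 0) =
        (m : ℝ) ^ (-(1 / 4) + η / 4) * ∑' l : ℕ, (if (l : ZMod (m / q)) = κ then Fh ((q : ℝ) ^ 2) m l else 0) := by
      intro κ
      rw [← tsum_mul_left]
      refine tsum_congr fun l => ?_
      rw [mul_ite, mul_zero]
    have h6 : ((m : ℝ) ^ (-(1 / 4) + η / 4) * (√60 * (m : ℝ) ^ (-(3 / 4) : ℝ)) * (q : ℝ)⁻¹) ^ 2 =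
        ((m : ℝ) ^ (-(1 / 4) + η / 4)) ^ 2 * (60 * ((q : ℝ)⁻¹ * (m : ℝ) ^ (-(3 / 4) : ℝ)) ^ 2) := by
      have h7 : √60 ^ 2 = (60 : ℝ) := Real.sq_sqrt (by norm_num)
      calc _ = ((m : ℝ) ^ (-(1 / 4) + η / 4)) ^ 2 * (√60 ^ 2 * ((q : ℝ)⁻¹ * (m : ℝ) ^ (-(3 / 4) : ℝ)) ^ 2) := by ring
        _ = _ := by rw [h7]
    rw [h6]
    simp only [h5, mul_pow ((m : ℝ) ^ (-(1 / 4) + η / 4))]
    rw [← Finset.mul_sum]
    exact mul_le_mul_of_nonneg_left h4 (by positivity)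
  · intro q hq _
    have h4 := cls_B m q N hm hq hN S hSN (fun n => ‖B n‖) M (fun n _ => norm_nonneg _) hB hM
    refine h4.trans (le_of_eq ?_)
    rw [mul_pow, Real.sq_sqrt (by positivity)]

end Pool.Agent.LibSM56B
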