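import Pool.Agent.LibSM56B.B_06
import Pool.Agent.LibSM56A.A_E4
import Pool.Agent.LibSM56A.A_B

/-! # SM56, part (B): one modulus (helper31) -/

set_option autoImplicit false

namespace Pool.Agent.LibSM56B

open MeasureTheory Set Filter Topology Complex
open Pool.Agent.LibSM47 Pool.Agent.LibSM56K Pool.Agent.LibSM56A
open Pool.Agent.LibSM47.SD (Tr pr Ph sl sg)

theorem line_re (c y : ℝ) : (line c y).re = c := by
  unfold line
  simp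

theorem line_cont (c : ℝ) : Continuous (fun y : ℝ => line c y) := by
  unfold line
  fun_prop

theorem pr_ne (a : Tr) : (pr a : ℂ) ≠ 0 := by
  have := (SD.pr_pos a).ne'
  exact_mod_cast this

theorem DSle_cont (m : ℕ) [NeZero m] (n : ZMod m) (b : B3) (Λ : ℕ) (c : ℝ) :
    Continuous (fun y : ℝ => DSle m n b Λ (1 - line c y)) := by
  unfold DSle
  refine continuous_finsetSum _ fun a _ => ?_
  refine continuous_const.mul ?_
  refine Continuous.const_cpow ?_ (Or.inl (pr_ne a))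
  exact (continuous_const.sub (line_cont c)).neg

theorem DSgt_cont (m : ℕ) [NeZero m] (n : ZMod m) (b : B3) (Λ : ℕ) (c : ℝ) (hc : c < 0) :
    Continuous (fun y : ℝ => DSgt m n b Λ (1 - line c y)) := by
  unfold DSgt
  have hs := DS_summable m n b (s := ((1 - c : ℝ) : ℂ)) (by rw [Complex.ofReal_re]; linarith)
  refine continuous_tsum (u := fun a : Tr => ‖FT m (Ph m n) (sl m b a) * (pr a : ℂ) ^ (-((1 - c : ℝ) : ℂ))‖) ?_ hs ?_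
  · intro a
    split_ifs
    · exact continuous_const
    · refine continuous_const.mul ?_
      refine Continuous.const_cpow ?_ (Or.inl (pr_ne a))
      exact (continuous_const.sub (line_cont c)).neg
  · intro a y
    split_ifs
    · rw [norm_zero]; exact norm_nonneg _
    · rw [norm_mul, norm_mul, SD.norm_pr_cpow, SD.norm_pr_cpow]
      refine le_of_eq ?_
      congr 2
      rw [Complex.neg_re, Complex.neg_re, Complex.sub_re, line_re, Complex.ofReal_re, Complex.one_re]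

/-- Exchange of a finite sum and a vertical integral. -/
theorem int_sum_le (f : ℝ → ℂ) (hf : Continuous f) (hI : Integrable fun y => ‖f y‖) (S : Finset ℕ) (γ : ℕ → ℂ)
    (D : ℕ → ℝ → ℂ) (hD : ∀ n ∈ S, Continuous (D n)) (hb : ∀ n ∈ S, ∃ C : ℝ, ∀ y, ‖D n y‖ ≤ C) (K : ℝ)
    (hK : ∀ y, ‖∑ n ∈ S, γ n * D n y‖ ≤ K) :
    ‖∑ n ∈ S, γ n * ∫ y : ℝ, f y * D n y‖ ≤ K * ∫ y : ℝ, ‖f y‖ := by
  have hfI : Integrable f := (integrable_norm_iff hf.aestronglyMeasurable).1 hI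
  have h1 : ∀ n ∈ S, Integrable (fun y => f y * D n y) := by
    intro n hn
    obtain ⟨C, hC⟩ := hb n hn
    exact hfI.mul_bdd (c := C) (hD n hn).aestronglyMeasurable (Filter.Eventually.of_forall hC)
  have h2 : ∑ n ∈ S, γ n * ∫ y : ℝ, f y * D n y = ∫ y : ℝ, f y * ∑ n ∈ S, γ n * D n y := by
    have h3 : ∀ n ∈ S, γ n * ∫ y : ℝ, f y * D n y = ∫ y : ℝ, γ n * (f y * D n y) := fun n _ => (integral_const_mul _ _).symm
    rw [Finset.sum_congr rfl h3, ← integral_finsetSum _ fun n hn => (h1 n hn).const_mul _]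
    refine integral_congr_ae (Filter.Eventually.of_forall fun y => ?_)
    dsimp only
    rw [Finset.mul_sum]
    refine Finset.sum_congr rfl fun n _ => ?_
    ring
  rw [h2, ← integral_const_mul]
  refine norm_integral_le_of_norm_le (hI.const_mul K) (Filter.Eventually.of_forall fun y => ?_)
  rw [norm_mul, mul_comm]
  exact mul_le_mul_of_nonneg_right (hK y) (norm_nonneg _)

theorem norm_X (m n : ℕ) (hm : 1 ≤ m) (hn : 1 ≤ n) (c y : ℝ) :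
    ‖((n * m ^ 2 : ℕ) : ℂ) ^ (-(line c y))‖ = ((n : ℝ) * (m : ℝ) ^ 2) ^ (-c) := by
  have h : ((n * m ^ 2 : ℕ) : ℂ) = (((n : ℝ) * (m : ℝ) ^ 2 : ℝ) : ℂ) := by push_cast; ring
  have hm0 : (0 : ℝ) < m := by exact_mod_cast hm
  have hn0 : (0 : ℝ) < n := by exact_mod_cast hn
  rw [h, Complex.norm_cpow_eq_rpow_re_of_pos (by positivity), Complex.neg_re, line_re]

theorem X_cont (m n : ℕ) (hm : 1 ≤ m) (hn : 1 ≤ n) (c : ℝ) :
    Continuous (fun y : ℝ => ((n * m ^ 2 : ℕ) : ℂ) ^ (-(line c y))) := by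
  refine Continuous.const_cpow (line_cont c).neg (Or.inl ?_)
  have : n * m ^ 2 ≠ 0 := by positivity
  exact_mod_cast this

/-- The short part of one modulus. -/
theorem part_low (η : ℝ) (hη : 0 < η) : ∃ C : ℝ, 0 < C ∧ ∀ (m : ℕ) [NeZero m] (N : ℕ), 1 ≤ N → ∀ (b : B3) (S : Finset ℕ),
    S ⊆ Finset.Icc 1 N → (∀ n ∈ S, Nat.Coprime n m) → ∀ (β : ℕ → ℂ), (∀ n, ‖β n‖ ≤ 1) →
    ∀ f : ℝ → ℂ, Continuous f → Integrable (fun y => ‖f y‖) →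
    ‖∑ n ∈ S, (β n * (((n : ℝ) ^ (-(1 / 2) : ℝ) : ℝ) : ℂ) * ((√((n : ℝ) / m) : ℝ) : ℂ)) *
      ∫ y : ℝ, f y * (((n * m ^ 2 : ℕ) : ℂ) ^ (-(line (1 / 2) y)) * DSle m ((n : ℕ) : ZMod m) b m (1 - line (1 / 2) y))‖ ≤
      C * ((m : ℝ) ^ η * (N : ℝ) ^ η) * √((m : ℝ) + N) * ∫ y : ℝ, ‖f y‖ := by
  obtain ⟨C, hC, hlow⟩ := B_low η hη
  refine ⟨C, hC, ?_⟩
  intro m _ N hN b S hSN hS β hβ f hf hI
  have hm : 1 ≤ m := Nat.one_le_iff_ne_zero.2 (NeZero.ne m)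
  have hm0 : (0 : ℝ) < m := by exact_mod_cast hm
  have hN0 : (0 : ℝ) ≤ N := Nat.cast_nonneg N
  have hn1 : ∀ n ∈ S, 1 ≤ n := fun n hn => (Finset.mem_Icc.1 (hSN hn)).1
  refine int_sum_le f hf hI S _ _ (fun n hn => (X_cont m n hm (hn1 n hn) _).mul (DSle_cont m _ b m _)) (fun n hn => ?_) _ (fun y => ?_)
  · have hn0 : (0 : ℝ) < n := by exact_mod_cast hn1 n hn
    refine ⟨C * (m : ℝ)⁻¹ * (m : ℝ) ^ 2 * ((m : ℝ) ^ η * (N : ℝ) ^ η) * √(1 + N / m), fun y => ?_⟩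
    have h1 := hlow m N hN b {n} (Finset.singleton_subset_iff.2 (hSN hn)) (fun k hk => by rw [Finset.mem_singleton.1 hk]; exact hS n hn)
      (fun _ => ((n * m ^ 2 : ℕ) : ℂ) ^ (-(line (1 / 2) y))) ((m : ℝ)⁻¹) (by positivity) ?_ (line (1 / 2) y) (line_re _ _)
    · rw [Finset.sum_singleton] at h1
      exact h1
    · intro k hk
      rw [Finset.mem_singleton.1 hk, norm_X m n hm (hn1 n hn), Real.mul_rpow hn0.le (by positivity), mul_comm]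
      refine le_of_eq ?_
      congr 1
      rw [← Real.rpow_natCast, ← Real.rpow_mul hm0.le, ← Real.rpow_neg_one]
      norm_num
  · have h1 := hlow m N hN b S hSN hS (fun n => (β n * (((n : ℝ) ^ (-(1 / 2) : ℝ) : ℝ) : ℂ) * ((√((n : ℝ) / m) : ℝ) : ℂ)) *
      ((n * m ^ 2 : ℕ) : ℂ) ^ (-(line (1 / 2) y))) ((m : ℝ) ^ (-(3 / 2) : ℝ)) (by positivity) ?_ (line (1 / 2) y) (line_re _ _)
    · have e : ∀ n ∈ S, (β n * (((n : ℝ) ^ (-(1 / 2) : ℝ) : ℝ) : ℂ) * ((√((n : ℝ) / m) : ℝ) : ℂ)) *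
          (((n * m ^ 2 : ℕ) : ℂ) ^ (-(line (1 / 2) y)) * DSle m ((n : ℕ) : ZMod m) b m (1 - line (1 / 2) y)) =
          (β n * (((n : ℝ) ^ (-(1 / 2) : ℝ) : ℝ) : ℂ) * ((√((n : ℝ) / m) : ℝ) : ℂ)) *
          ((n * m ^ 2 : ℕ) : ℂ) ^ (-(line (1 / 2) y)) * DSle m ((n : ℕ) : ZMod m) b m (1 - line (1 / 2) y) := fun n _ => by ring
      simp only [Pi.mul_apply]
      rw [Finset.sum_congr rfl e]
      refine h1.trans (le_of_eq ?_)
      have e2 : (m : ℝ) ^ (-(3 / 2) : ℝ) * (m : ℝ) ^ 2 = √(m : ℝ) := by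
        rw [← Real.rpow_natCast, ← Real.rpow_add hm0, Real.sqrt_eq_rpow]
        norm_num
      have e3 : √(m : ℝ) * √(1 + N / m) = √((m : ℝ) + N) := by
        rw [← Real.sqrt_mul hm0.le]
        congr 1
        field_simp
      calc C * (m : ℝ) ^ (-(3 / 2) : ℝ) * (m : ℝ) ^ 2 * ((m : ℝ) ^ η * (N : ℝ) ^ η) * √(1 + N / m)
          = C * ((m : ℝ) ^ (-(3 / 2) : ℝ) * (m : ℝ) ^ 2) * ((m : ℝ) ^ η * (N : ℝ) ^ η) * √(1 + N / m) := by ring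
        _ = C * ((m : ℝ) ^ η * (N : ℝ) ^ η) * (√(m : ℝ) * √(1 + N / m)) := by rw [e2]; ring
        _ = _ := by rw [e3]
    · intro n hn
      have hn0 : (0 : ℝ) < n := by exact_mod_cast hn1 n hn
      rw [norm_mul, norm_mul, norm_mul, norm_X m n hm (hn1 n hn), Complex.norm_real, Complex.norm_real,
        Real.norm_of_nonneg (by positivity), Real.norm_of_nonneg (Real.sqrt_nonneg _)]
      have e1 : √((n : ℝ) / m) = (n : ℝ) ^ (1 / 2 : ℝ) * (m : ℝ) ^ (-(1 / 2) : ℝ) := by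
        rw [Real.sqrt_eq_rpow, Real.div_rpow hn0.le hm0.le, Real.rpow_neg hm0.le]
        rfl
      have e2 : ((n : ℝ) * (m : ℝ) ^ 2) ^ (-(1 / 2) : ℝ) = (n : ℝ) ^ (-(1 / 2) : ℝ) * (m : ℝ) ^ (-1 : ℝ) := by
        rw [Real.mul_rpow hn0.le (by positivity), ← Real.rpow_natCast, ← Real.rpow_mul hm0.le]
        norm_num
      have e3 : (n : ℝ) ^ (-(1 / 2) : ℝ) * (n : ℝ) ^ (1 / 2 : ℝ) = 1 := by
        rw [← Real.rpow_add hn0]; norm_num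
      have e4 : (m : ℝ) ^ (-(1 / 2) : ℝ) * (m : ℝ) ^ (-1 : ℝ) = (m : ℝ) ^ (-(3 / 2) : ℝ) := by
        rw [← Real.rpow_add hm0]; norm_num
      rw [e1, e2]
      calc ‖β n‖ * (n : ℝ) ^ (-(1 / 2) : ℝ) * ((n : ℝ) ^ (1 / 2 : ℝ) * (m : ℝ) ^ (-(1 / 2) : ℝ)) * ((n : ℝ) ^ (-(1 / 2) : ℝ) * (m : ℝ) ^ (-1 : ℝ))
          = ‖β n‖ * (((n : ℝ) ^ (-(1 / 2) : ℝ) * (n : ℝ) ^ (1 / 2 : ℝ)) * ((m : ℝ) ^ (-(1 / 2) : ℝ) * (m : ℝ) ^ (-1 : ℝ)) *
            (n : ℝ) ^ (-(1 / 2) : ℝ)) := by ring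
        _ = ‖β n‖ * ((m : ℝ) ^ (-(3 / 2) : ℝ) * (n : ℝ) ^ (-(1 / 2) : ℝ)) := by rw [e3, e4, one_mul]
        _ ≤ 1 * ((m : ℝ) ^ (-(3 / 2) : ℝ) * (n : ℝ) ^ (-(1 / 2) : ℝ)) := mul_le_mul_of_nonneg_right (hβ n) (by positivity)
        _ = _ := one_mul _

/-- The long part of one modulus. -/
theorem part_high (η : ℝ) (hη : 0 < η) (hη1 : η ≤ 1) : ∃ C : ℝ, 0 < C ∧ ∀ (m : ℕ) [NeZero m] (N : ℕ), 1 ≤ N → ∀ (b : B3) (S : Finset ℕ),
    S ⊆ Finset.Icc 1 N → (∀ n ∈ S, Nat.Coprime n m) → ∀ (β : ℕ → ℂ), (∀ n, ‖β n‖ ≤ 1) →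
    ∀ f : ℝ → ℂ, Continuous f → Integrable (fun y => ‖f y‖) →
    ‖∑ n ∈ S, (β n * (((n : ℝ) ^ (-(1 / 2) : ℝ) : ℝ) : ℂ) * ((√((n : ℝ) / m) : ℝ) : ℂ)) *
      ∫ y : ℝ, f y * (((n * m ^ 2 : ℕ) : ℂ) ^ (-(line (-(1 / 2)) y)) * DSgt m ((n : ℕ) : ZMod m) b m (1 - line (-(1 / 2)) y))‖ ≤
      C * ((m : ℝ) * N) * ((m : ℝ) ^ η * (N : ℝ) ^ η) * √((m : ℝ) + N) * ∫ y : ℝ, ‖f y‖ := by
  obtain ⟨C, hC, hhigh⟩ := B_high η hη hη1
  refine ⟨C, hC, ?_⟩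
  intro m _ N hN b S hSN hS β hβ f hf hI
  have hm : 1 ≤ m := Nat.one_le_iff_ne_zero.2 (NeZero.ne m)
  have hm0 : (0 : ℝ) < m := by exact_mod_cast hm
  have hN0 : (0 : ℝ) ≤ N := Nat.cast_nonneg N
  have hn1 : ∀ n ∈ S, 1 ≤ n := fun n hn => (Finset.mem_Icc.1 (hSN hn)).1
  have hX : ∀ n ∈ S, ∀ y : ℝ, ‖((n * m ^ 2 : ℕ) : ℂ) ^ (-(line (-(1 / 2)) y))‖ ≤ m * N * (n : ℝ) ^ (-(1 / 2) : ℝ) := by
    intro n hn y
    have hn0 : (0 : ℝ) < n := by exact_mod_cast hn1 n hn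
    have hnN : (n : ℝ) ≤ N := by exact_mod_cast (Finset.mem_Icc.1 (hSN hn)).2
    rw [norm_X m n hm (hn1 n hn), Real.mul_rpow hn0.le (by positivity)]
    have e1 : ((m : ℝ) ^ 2) ^ (-(-(1 / 2)) : ℝ) = m := by
      rw [← Real.rpow_natCast, ← Real.rpow_mul hm0.le]
      norm_num
    have e2 : (n : ℝ) ^ (-(-(1 / 2)) : ℝ) = n * (n : ℝ) ^ (-(1 / 2) : ℝ) := by
      rw [← Real.rpow_one_add' hn0.le (by norm_num)]
      norm_num
    rw [e1, e2]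
    calc (n : ℝ) * (n : ℝ) ^ (-(1 / 2) : ℝ) * m = m * n * (n : ℝ) ^ (-(1 / 2) : ℝ) := by ring
      _ ≤ m * N * (n : ℝ) ^ (-(1 / 2) : ℝ) := by gcongr
  refine int_sum_le f hf hI S _ _ (fun n hn => (X_cont m n hm (hn1 n hn) _).mul (DSgt_cont m _ b m _ (by norm_num))) (fun n hn => ?_) _
    (fun y => ?_)
  · have hn0 : (0 : ℝ) < n := by exact_mod_cast hn1 n hn
    refine ⟨C * (m * N) * m * ((m : ℝ) ^ η * (N : ℝ) ^ η) * √(1 + N / m), fun y => ?_⟩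
    have h1 := hhigh m N hN b {n} (Finset.singleton_subset_iff.2 (hSN hn)) (fun k hk => by rw [Finset.mem_singleton.1 hk]; exact hS n hn)
      (fun _ => ((n * m ^ 2 : ℕ) : ℂ) ^ (-(line (-(1 / 2)) y))) (m * N) (by positivity) ?_ (line (-(1 / 2)) y) (line_re _ _)
    · rw [Finset.sum_singleton] at h1
      exact h1
    · intro k hk
      rw [Finset.mem_singleton.1 hk]
      exact hX n hn y
  · have h1 := hhigh m N hN b S hSN hS (fun n => (β n * (((n : ℝ) ^ (-(1 / 2) : ℝ) : ℝ) : ℂ) * ((√((n : ℝ) / m) : ℝ) : ℂ)) *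
      ((n * m ^ 2 : ℕ) : ℂ) ^ (-(line (-(1 / 2)) y))) (√(m : ℝ) * N) (by positivity) ?_ (line (-(1 / 2)) y) (line_re _ _)
    · have e : ∀ n ∈ S, (β n * (((n : ℝ) ^ (-(1 / 2) : ℝ) : ℝ) : ℂ) * ((√((n : ℝ) / m) : ℝ) : ℂ)) *
          (((n * m ^ 2 : ℕ) : ℂ) ^ (-(line (-(1 / 2)) y)) * DSgt m ((n : ℕ) : ZMod m) b m (1 - line (-(1 / 2)) y)) =
          (β n * (((n : ℝ) ^ (-(1 / 2) : ℝ) : ℝ) : ℂ) * ((√((n : ℝ) / m) : ℝ) : ℂ)) *
          ((n * m ^ 2 : ℕ) : ℂ) ^ (-(line (-(1 / 2)) y)) * DSgt m ((n : ℕ) : ZMod m) b m (1 - line (-(1 / 2)) y) := fun n _ => by ring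
      simp only [Pi.mul_apply]
      rw [Finset.sum_congr rfl e]
      refine h1.trans (le_of_eq ?_)
      have e3 : √(m : ℝ) * √(1 + N / m) = √((m : ℝ) + N) := by
        rw [← Real.sqrt_mul hm0.le]
        congr 1
        field_simp
      calc C * (√(m : ℝ) * N) * m * ((m : ℝ) ^ η * (N : ℝ) ^ η) * √(1 + N / m)
          = C * (m * N) * ((m : ℝ) ^ η * (N : ℝ) ^ η) * (√(m : ℝ) * √(1 + N / m)) := by ring
        _ = _ := by rw [e3]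
    · intro n hn
      have hn0 : (0 : ℝ) < n := by exact_mod_cast hn1 n hn
      rw [norm_mul, norm_mul, norm_mul, Complex.norm_real, Complex.norm_real,
        Real.norm_of_nonneg (by positivity), Real.norm_of_nonneg (Real.sqrt_nonneg _)]
      have e1 : √((n : ℝ) / m) = (n : ℝ) ^ (1 / 2 : ℝ) * (√(m : ℝ))⁻¹ := by
        rw [Real.sqrt_div hn0.le, Real.sqrt_eq_rpow (n : ℝ)]
        rfl
      have e3 : (n : ℝ) ^ (-(1 / 2) : ℝ) * (n : ℝ) ^ (1 / 2 : ℝ) = 1 := by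
        rw [← Real.rpow_add hn0]; norm_num
      have e4 : (√(m : ℝ))⁻¹ * (m : ℝ) = √(m : ℝ) := by
        have h2 : √(m : ℝ) * √(m : ℝ) = m := Real.mul_self_sqrt hm0.le
        have h3 : √(m : ℝ) ≠ 0 := (Real.sqrt_pos.2 hm0).ne'
        field_simp
        rw [sq, h2]
      rw [e1]
      calc ‖β n‖ * (n : ℝ) ^ (-(1 / 2) : ℝ) * ((n : ℝ) ^ (1 / 2 : ℝ) * (√(m : ℝ))⁻¹) * ‖((n * m ^ 2 : ℕ) : ℂ) ^ (-(line (-(1 / 2)) y))‖
          ≤ 1 * (n : ℝ) ^ (-(1 / 2) : ℝ) * ((n : ℝ) ^ (1 / 2 : ℝ) * (√(m : ℝ))⁻¹) * (m * N * (n : ℝ) ^ (-(1 / 2) : ℝ)) := by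
            have := hβ n
            have := hX n hn y
            gcongr
        _ = ((n : ℝ) ^ (-(1 / 2) : ℝ) * (n : ℝ) ^ (1 / 2 : ℝ)) * ((√(m : ℝ))⁻¹ * m) * N * (n : ℝ) ^ (-(1 / 2) : ℝ) := by ring
        _ = _ := by rw [e3, e4]; ring

end Pool.Agent.LibSM56B
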